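import Pool.Agent.Q5.SH.Stm
import Pool.Agent.Y18.LC.Loc

/-!
Project SH (helper5), job EE (helper222): characters of `Kˣ` detecting an element which is not a
`p`-th power.  The extension lemmas `ext_char`, `char_of_rel` are as in `Pool.Agent.Q285.EX.Chev`.
-/

set_option autoImplicit false
set_option linter.unusedSectionVars false

namespace Pool.Agent.Q222.SH

open NumberField IsDedekindDomain Module Pool.Agent.Y18.LC Pool.Agent.Q5.SG Pool.Agent.Q5.SH
open Pool.Agent.Q92.AR (Dv prin Pr Ray RayD Cong Pos SupF prin_mul prin_one prin_inv prin_div prinHom)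

/-- characters extend from subgroups -/
theorem ext_char {A : Type} [AddCommGroup A] (H : AddSubgroup A) (f : H →+ Additive ℂˣ) :
    ∃ g : A →+ Additive ℂˣ, ∀ x : H, g x = f x := by
  have h1 : DivisibleBy (Additive ℂˣ) ℕ := divisibleByOfSMulRightSurj _ _ (by
    intro n hn a
    obtain ⟨z, hz⟩ := IsAlgClosed.exists_pow_nat_eq ((a.toMul : ℂˣ) : ℂ) (Nat.pos_of_ne_zero hn)
    have hz0 : z ≠ 0 := by
      rintro rfl
      rw [zero_pow hn] at hz
      exact a.toMul.ne_zero hz.symm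
    refine ⟨Additive.ofMul (Units.mk0 z hz0), ?_⟩
    apply Additive.toMul.injective
    show (Units.mk0 z hz0) ^ n = a.toMul
    ext
    rw [Units.val_pow_eq_pow_val, Units.val_mk0, hz])
  have h2 : DivisibleBy (Additive ℂˣ) ℤ := AddGroup.divisibleByIntOfDivisibleByNat _
  obtain ⟨g, hg⟩ := (Module.Baer.of_divisible (Additive ℂˣ)).extension_property_addMonoidHom
    H.subtype H.subtype_injective f
  exact ⟨g, fun x => DFunLike.congr_fun hg x⟩

/-- a character of a graph gives a character of the source -/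
theorem char_of_rel {A B : Type} [AddCommGroup A] [AddCommGroup B] (Γ : AddSubgroup (A × B))
    (θ : B →+ Additive ℂˣ) (h : ∀ b, ((0 : A), b) ∈ Γ → θ b = 0) :
    ∃ χ : A →+ Additive ℂˣ, ∀ a b, (a, b) ∈ Γ → χ a = θ b := by
  classical
  have hex : ∀ a : Γ.map (AddMonoidHom.fst A B), ∃ b, ((a : A), b) ∈ Γ := by
    rintro ⟨a, ⟨⟨a', b⟩, hab, rfl⟩⟩
    exact ⟨b, hab⟩
  choose b hb using hex
  have huniq : ∀ a b1 b2, (a, b1) ∈ Γ → (a, b2) ∈ Γ → θ b1 = θ b2 := by
    intro a b1 b2 h1 h2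
    have h3 := Γ.sub_mem h1 h2
    rw [Prod.mk_sub_mk, sub_self] at h3
    rw [← sub_eq_zero, ← map_sub]
    exact h _ h3
  let f : Γ.map (AddMonoidHom.fst A B) →+ Additive ℂˣ := AddMonoidHom.mk' (fun a => θ (b a)) (by
    intro a a'
    rw [← map_add]
    exact huniq _ _ _ (hb _) (Γ.add_mem (hb a) (hb a')))
  obtain ⟨χ, hχ⟩ := ext_char _ f
  refine ⟨χ, fun a b' hab => ?_⟩
  have h1 := hχ ⟨a, ⟨(a, b'), hab, rfl⟩⟩
  exact h1.trans (huniq _ _ _ (hb _) hab)

/-- an element of order `p` modulo `q` is detected by a character -/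
theorem exists_char_of_not_mem {A : Type} [AddCommGroup A] {p q : ℕ} (hp : p.Prime) (x : A)
    (hx : ∀ a : A, x ≠ q • a) (hpx : ∃ a : A, p • x = q • a) :
    ∃ e : A →+ Additive ℂˣ, (∀ y, q • e y = 0) ∧ e x ≠ 0 := by
  -- a character of ℤ of order p
  obtain ⟨z, hz⟩ : ∃ z : ℂˣ, IsPrimitiveRoot z p :=
    ⟨_, (Complex.isPrimitiveRoot_exp p hp.ne_zero).isUnit_unit hp.ne_zero⟩
  let θ : ℤ →+ Additive ℂˣ := (zmultiplesHom (Additive ℂˣ)) (Additive.ofMul z)
  have hθ : ∀ n : ℤ, θ n = n • Additive.ofMul z := fun n => by simp [θ]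
  have hθp : ∀ n : ℤ, (p : ℤ) ∣ n → θ n = 0 := by
    rintro _ ⟨c, rfl⟩
    rw [hθ]
    apply Additive.toMul.injective
    change z ^ ((p : ℤ) * c) = 1
    rw [zpow_mul, zpow_natCast, hz.pow_eq_one, one_zpow]
  have hθ1 : θ 1 ≠ 0 := by
    intro h
    rw [hθ] at h
    have h1 : z ^ (1 : ℤ) = 1 := Additive.toMul.injective.eq_iff.2 h
    rw [zpow_one] at h1
    have h2 := hz.eq_orderOf
    rw [h1, orderOf_one] at h2
    exact hp.one_lt.ne' h2
  obtain ⟨c, hc⟩ := hpx
  let Γ : AddSubgroup (A × ℤ) :=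
    { carrier := {t | ∃ a : A, t.1 = t.2 • x + q • a}
      add_mem' := by
        rintro ⟨a, m⟩ ⟨b, n⟩ ⟨a', ha'⟩ ⟨b', hb'⟩
        refine ⟨a' + b', ?_⟩
        dsimp at *
        rw [ha', hb', add_smul, smul_add]
        abel
      zero_mem' := ⟨0, by simp⟩
      neg_mem' := by
        rintro ⟨a, m⟩ ⟨a', ha'⟩
        refine ⟨-a', ?_⟩
        dsimp at *
        rw [ha', neg_smul, smul_neg]
        abel }
  have hΓ : ∀ a n, (a, n) ∈ Γ ↔ ∃ a' : A, a = n • x + q • a' := fun a n => Iff.rfl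
  obtain ⟨χ, hχ⟩ := char_of_rel Γ θ (by
    intro n hn
    obtain ⟨a, ha⟩ := (hΓ _ _).1 hn
    apply hθp
    by_contra hnd
    -- p and n coprime
    have hcop : IsCoprime (p : ℤ) n := (Nat.prime_iff_prime_int.1 hp).coprime_iff_not_dvd.2 hnd
    obtain ⟨u, v, huv⟩ := hcop
    -- x = u p x + v n x
    have h1 : x = (u * p + v * n) • x := by rw [huv, one_smul]
    apply hx (u • c - v • a)
    have h2 : n • x = - (q • a) := eq_neg_of_add_eq_zero_left ha.symm
    have h3 : (p : ℤ) • x = q • c := by rw [← hc, natCast_zsmul]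
    calc x = (u * p + v * n) • x := h1
      _ = u • ((p : ℤ) • x) + v • (n • x) := by rw [add_smul, mul_smul, mul_smul]
      _ = q • (u • c - v • a) := by
        rw [h2, h3, smul_sub, smul_neg, smul_comm u q c, smul_comm v q a, sub_eq_add_neg])
  refine ⟨χ, fun y => ?_, ?_⟩
  · rw [← map_nsmul, hχ (q • y) 0 ((hΓ _ _).2 ⟨y, by rw [zero_smul, zero_add]⟩), map_zero]
  · rw [hχ x 1 ((hΓ _ _).2 ⟨0, by rw [one_smul, smul_zero, add_zero]⟩)]
    exact hθ1

/-- JOB SH-EE -/
theorem ee : S_EE := by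
  intro p hpf hp2 K _ _ hun m hm b hb
  have hp : p.Prime := hpf.out
  obtain ⟨e, he, hb'⟩ := exists_char_of_not_mem (A := Additive Kˣ) (q := p ^ m) hp
    (p ^ (m - 1) • Additive.ofMul b) (by
      intro a h
      apply hb
      -- b ^ p^(m-1) = k ^ p ^ m
      have h1 : b ^ p ^ (m - 1) = a.toMul ^ p ^ m := h
      have h2 : p ^ m = p * p ^ (m - 1) := by
        rw [← pow_succ']
        congr 1
        omega
      have h3 : (b / a.toMul ^ p) ^ p ^ (m - 1) = 1 := by
        rw [div_pow, h1, h2, pow_mul, div_self']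
      have h4 : b / a.toMul ^ p = 1 := by
        set u := b / a.toMul ^ p with hu
        have hint : IsIntegral ℤ (u : K) := by
          refine IsIntegral.of_pow (pow_pos hp.pos (m - 1)) ?_
          rw [← Units.val_pow_eq_pow_val, h3, Units.val_one]
          exact isIntegral_one
        obtain ⟨z, hz⟩ : ∃ z : 𝓞 K, algebraMap (𝓞 K) K z = u := ⟨⟨u, hint⟩, rfl⟩
        have h5 : z ^ p ^ (m - 1) = 1 := by
          apply RingOfIntegers.coe_injective
          rw [map_pow, hz, ← Units.val_pow_eq_pow_val, h3, Units.val_one, map_one]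
        have h6 := no_torsion' hp hp2 hun (m - 1) h5
        ext
        rw [← hz, h6, map_one, Units.val_one]
      exact mem_PW.2 ⟨a.toMul, (div_eq_one.1 h4).symm⟩)
    ⟨Additive.ofMul b, by
      rw [smul_smul, ← pow_succ']
      congr 2
      omega⟩
  exact ⟨e, he, by rwa [← map_nsmul]⟩

end Pool.Agent.Q222.SH
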