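import Pool.Agent.Q222.SH.EE

/-!
Project SH (helper5), job EXT (helper222): extension of characters of the group of the divisors.
-/

set_option autoImplicit false
set_option linter.unusedSectionVars false

namespace Pool.Agent.Q222.SH

open NumberField IsDedekindDomain Module Pool.Agent.Y18.LC Pool.Agent.Q5.SG Pool.Agent.Q5.SH
open Pool.Agent.Q92.AR (Dv prin Pr Ray RayD Cong Pos SupF prin_mul prin_one prin_inv prin_div prinHom)

theorem prin_apply_eq_zero {K : Type} [Field K] [NumberField K] {v : HeightOneSpectrum (𝓞 K)} {x : Kˣ}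
    (hx : x ∈ UnitAt v) : prin x v = 0 := by
  have h1 := Pool.Agent.Q128.AR.val_prin x v
  rw [mem_UnitAt.1 hx, ← WithZero.exp_zero] at h1
  have h2 := WithZero.exp_injective h1
  omega

/-- JOB SH-EXT -/
theorem ext : S_EXT := by
  classical
  intro K _ _ hdec q T V χ hq hχ hTV κ hκq hκV hκB
  -- the component of a divisor outside `V`
  let pr : Dv K →+ Dv K := Finsupp.filterAddHom (fun v => v ∉ V)
  have hpr : ∀ (D : Dv K), (∀ v ∈ V, D v = 0) → pr D = D := by
    intro D hD
    ext v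
    change (Finsupp.filter (fun v => v ∉ V) D) v = D v
    by_cases hv : v ∈ V
    · rw [Finsupp.filter_apply_neg (fun v => v ∉ V) D (not_not.2 hv), hD v hv]
    · rw [Finsupp.filter_apply_pos (fun v => v ∉ V) D hv]
  have hpr0 : ∀ v ∈ V, pr (Finsupp.single v 1) = 0 := by
    intro v hv
    change Finsupp.filter (fun v => v ∉ V) (Finsupp.single v 1) = 0
    exact Finsupp.filter_single_of_neg (fun v => v ∉ V) (not_not.2 hv)
  -- the character `ψ`
  let Γ : AddSubgroup (Dv K × Additive Kˣ) :=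
    { carrier := {t | (∀ v ∈ V, t.2.toMul ∈ UnitAt v) ∧ ∃ D1 ∈ SupF K ((T ∪ V : Finset _) : Set _),
        ∃ D2 : Dv K, t.1 = prin t.2.toMul + D1 + q • D2}
      add_mem' := by
        rintro ⟨a, x⟩ ⟨b, y⟩ ⟨hx, D1, hD1, D2, ha⟩ ⟨hy, E1, hE1, E2, hb⟩
        refine ⟨fun v hv => (UnitAt v).mul_mem (hx v hv) (hy v hv), D1 + E1, add_mem hD1 hE1, D2 + E2, ?_⟩
        dsimp only at ha hb
        change a + b = prin (x.toMul * y.toMul) + (D1 + E1) + q • (D2 + E2)
        rw [ha, hb, prin_mul, smul_add]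
        abel
      zero_mem' := ⟨fun v hv => (UnitAt v).one_mem, 0, zero_mem _, 0, by
        change (0 : Dv K) = prin (1 : Kˣ) + 0 + q • 0
        rw [prin_one, smul_zero, add_zero, add_zero]⟩
      neg_mem' := by
        rintro ⟨a, x⟩ ⟨hx, D1, hD1, D2, ha⟩
        refine ⟨fun v hv => (UnitAt v).inv_mem (hx v hv), -D1, neg_mem hD1, -D2, ?_⟩
        dsimp only at ha
        change -a = prin (x.toMul)⁻¹ + (-D1) + q • (-D2)
        rw [ha, prin_inv, smul_neg]
        abel }
  have hΓ : ∀ (D : Dv K) (x : Kˣ), (D, Additive.ofMul x) ∈ Γ ↔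
      (∀ v ∈ V, x ∈ UnitAt v) ∧ ∃ D1 ∈ SupF K ((T ∪ V : Finset _) : Set _),
        ∃ D2 : Dv K, D = prin x + D1 + q • D2 := fun _ _ => Iff.rfl
  obtain ⟨ψ, hψ⟩ := char_of_rel Γ κ (by
    intro b hb
    obtain ⟨hu, D1, hD1, D2, h0⟩ := (hΓ 0 b.toMul).1 hb
    refine hκB b.toMul (mem_BT.2 fun v hv => ?_)
    by_cases hvV : v ∈ V
    · rw [prin_apply_eq_zero (hu v hvV)]
      exact dvd_zero _
    · have h1 := DFunLike.congr_fun h0 v
      have h2 : D1 v = 0 := hD1 v (by
        rw [Finset.mem_coe, Finset.mem_union, not_or]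
        exact ⟨hv, hvV⟩)
      rw [Finsupp.add_apply, Finsupp.add_apply, Finsupp.smul_apply, h2, add_zero] at h1
      refine ⟨-(D2 v), ?_⟩
      have h3 : (0 : ℤ) = prin b.toMul v + q • D2 v := h1
      rw [nsmul_eq_mul] at h3
      linarith)
  have hψq : ∀ D, q • ψ D = 0 := by
    intro D
    rw [← map_nsmul, hψ (q • D) 0 ((hΓ _ 1).2 ⟨fun v _ => (UnitAt v).one_mem, 0, zero_mem _, D, by
      rw [prin_one, zero_add, zero_add]⟩), map_zero]
  have hψT : ∀ D ∈ SupF K ((T ∪ V : Finset _) : Set _), ψ D = 0 := by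
    intro D hD
    rw [hψ D 0 ((hΓ _ 1).2 ⟨fun v _ => (UnitAt v).one_mem, D, hD, 0, by
      rw [prin_one, zero_add, smul_zero, add_zero]⟩), map_zero]
  have hψx : ∀ x : Kˣ, (∀ v ∈ V, x ∈ UnitAt v) → ψ (prin x) = κ (Additive.ofMul x) := by
    intro x hx
    exact hψ (prin x) (Additive.ofMul x) ((hΓ _ x).2 ⟨hx, 0, zero_mem _, 0, by
      rw [add_zero, smul_zero, add_zero]⟩)
  have hform : ∀ x : Kˣ, (∀ v ∈ V, x ∈ UnitAt v) →
      (χ.comp pr + ψ) (prin x) = χ (prin x) + κ (Additive.ofMul x) := by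
    intro x hx
    rw [AddMonoidHom.add_apply, AddMonoidHom.comp_apply, hψx x hx,
      hpr _ fun v hv => prin_apply_eq_zero (hx v hv)]
  refine ⟨χ.comp pr + ψ, ⟨fun D => ?_, fun v hv => ?_, fun x hx => ?_⟩, hform⟩
  · rw [AddMonoidHom.add_apply, AddMonoidHom.comp_apply, nsmul_add, hχ.tor, hψq, add_zero]
  · rw [AddMonoidHom.add_apply, AddMonoidHom.comp_apply, hψT, add_zero]
    · rcases Finset.mem_union.1 hv with h | h
      · rw [hpr, hχ.zero v h]
        intro w hw
        refine Finsupp.single_eq_of_ne ?_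
        rintro rfl
        exact Finset.disjoint_left.1 hTV h hw
      · rw [hpr0 v h, map_zero]
    · intro w hw
      refine Finsupp.single_eq_of_ne ?_
      rintro rfl
      exact hw hv
  · rw [hform x fun v hv => OneAt_le v (hx v (Finset.mem_union_right _ hv)),
      hχ.ray x fun v hv => hx v (Finset.mem_union_left _ hv),
      hκV x fun v hv => hx v (Finset.mem_union_right _ hv), add_zero]

end Pool.Agent.Q222.SH
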