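import Pool.Agent.Q5.SH.Stm
import Pool.Agent.Q225.AR.Fin
import Pool.Agent.Q290.SG.SM
import Pool.Agent.Q125.AR.Base

/-!
Project SH (helper5), job FI (helper222).
-/

set_option autoImplicit false
set_option linter.unusedSectionVars false

namespace Pool.Agent.Q222.SH

open NumberField IsDedekindDomain Module Pool.Agent.Y18.LC Pool.Agent.Q5.SG Pool.Agent.Q5.SH
open Pool.Agent.Q92.AR (Dv prin Pr Ray RayD Cong Pos SupF prin_mul prin_one prin_inv prin_div prinHom)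

section

variable {p : ℕ} [Fact p.Prime] {K : Type} [Field K] [NumberField K]

/-- an element congruent to `1` modulo `p ^ k` at the primes above `p` is close to `1` -/
theorem cl_of_cong' {k : ℕ} {x : K} (hx : ∀ v : HeightOneSpectrum (𝓞 K), (p : 𝓞 K) ∈ v.asIdeal →
    v.valuation K (x - 1) ≤ v.valuation K ((p : K) ^ k)) (σ : K →+* ℂ_[p]) : ‖σ x - 1‖ ≤ ((p : ℝ)⁻¹) ^ k := by
  have hp0 : (p : K) ^ k ≠ 0 := pow_ne_zero _ (Nat.cast_ne_zero.2 (Fact.out : p.Prime).ne_zero)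
  have h1 : ‖σ ((x - 1) / (p : K) ^ k)‖ ≤ 1 := by
    apply Pool.Agent.Q290.SG.vl p K σ
    intro v hv
    rw [map_div₀]
    have h3 : v.valuation K ((p : K) ^ k) ≠ 0 := (Valuation.ne_zero_iff _).2 hp0
    exact (div_le_one₀ (zero_lt_iff.2 h3)).2 (hx v hv)
  have h2 : σ x - 1 = σ ((x - 1) / (p : K) ^ k) * (p : ℂ_[p]) ^ k := by
    rw [map_div₀, map_pow, map_natCast, map_sub, map_one, div_mul_cancel₀]
    exact pow_ne_zero _ (Nat.cast_ne_zero.2 (Fact.out : p.Prime).ne_zero)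
  have h3 : ‖(p : ℂ_[p])‖ = (p : ℝ)⁻¹ := by
    have h := norm_algebraMap' ℂ_[p] ((p : ℕ) : ℚ_[p])
    rw [map_natCast, Padic.norm_p] at h
    exact h
  rw [h2, norm_mul, norm_pow, h3]
  exact mul_le_of_le_one_left (by positivity) h1

theorem val_lt_one {N : ℕ} {v : HeightOneSpectrum (𝓞 K)} (h : (N : 𝓞 K) ∈ v.asIdeal) :
    v.valuation K (N : K) < 1 := by
  have h := (v.valuation_lt_one_iff_mem (K := K) (N : 𝓞 K)).2 h
  simpa using h

theorem val_nat_le (N : ℕ) (v : HeightOneSpectrum (𝓞 K)) : v.valuation K (N : K) ≤ 1 := by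
  have h := v.valuation_le_one (K := K) (N : 𝓞 K)
  simpa using h

/-- `1 ∈` and `x ≡ 1` at `T` imply `x` in the local groups -/
theorem mem_Loc_of_one {T : Finset (HeightOneSpectrum (𝓞 K))} {χ : Dv K →+ Additive ℂˣ}
    {v : HeightOneSpectrum (𝓞 K)} {x : Kˣ} (h : x ∈ OneAt v) : x ∈ Loc T χ v := by
  refine mem_Loc.2 ⟨1, ?_, fun w _ _ => (OneAt w).one_mem, by rw [prin_one, map_zero]⟩
  rw [one_div]
  exact (OneAt v).inv_mem h

theorem smul_mem_NQ {S : Set (K →+* ℂ_[p])} {T : Finset (HeightOneSpectrum (𝓞 K))}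
    {χ : Dv K →+ Additive ℂˣ} (D : Dv K) : p • D ∈ NQ S T χ :=
  mem_NQ.2 ⟨1, (Qg S T χ).one_mem, D, 0, zero_mem _, by rw [prin_one, zero_add, add_zero]⟩

theorem prin_mem_NQ {S : Set (K →+* ℂ_[p])} {T : Finset (HeightOneSpectrum (𝓞 K))}
    {χ : Dv K →+ Additive ℂˣ} {x : Kˣ} (hx : x ∈ Qg S T χ) : prin x ∈ NQ S T χ :=
  mem_NQ.2 ⟨x, hx, 0, 0, zero_mem _, by rw [smul_zero, add_zero, add_zero]⟩

theorem sup_mem_NQ {S : Set (K →+* ℂ_[p])} {T : Finset (HeightOneSpectrum (𝓞 K))}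
    {χ : Dv K →+ Additive ℂˣ} {D : Dv K} (hD : D ∈ SupF K ((T : Set (HeightOneSpectrum (𝓞 K))) ∪ PSet S)) :
    D ∈ NQ S T χ :=
  mem_NQ.2 ⟨1, (Qg S T χ).one_mem, 0, D, hD, by rw [prin_one, zero_add, smul_zero, zero_add]⟩

theorem exists_N (S : Set (K →+* ℂ_[p])) (T : Finset (HeightOneSpectrum (𝓞 K))) (χ : Dv K →+ Additive ℂˣ) :
    ∃ N : ℕ, N ≠ 0 ∧ ∀ x ∈ Ray K N, x ∈ Qg S T χ := by
  classical
  have hp0 : p ≠ 0 := (Fact.out : p.Prime).ne_zero
  refine ⟨p ^ 2 * ∏ v ∈ T, Ideal.absNorm v.asIdeal, mul_ne_zero (pow_ne_zero _ hp0)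
    (Finset.prod_ne_zero_iff.2 fun v _ => ?_), fun x hx => ?_⟩
  · rw [Ne, Ideal.absNorm_eq_zero_iff]
    exact v.ne_bot
  · obtain ⟨hx1, -⟩ := hx
    rw [mem_Qg]
    refine ⟨fun σ _ => cl_of_cong' (fun v hv => ?_) σ, fun v hv => mem_Loc_of_one ?_⟩
    · refine (hx1 v ?_).trans ?_
      · rw [Nat.cast_mul, Nat.cast_pow, pow_two, mul_assoc]
        exact Ideal.mul_mem_right _ _ hv
      · rw [Nat.cast_mul, map_mul, Nat.cast_pow]
        exact mul_le_of_le_one_right' (val_nat_le _ v)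
    · have hN : ((p ^ 2 * ∏ v ∈ T, Ideal.absNorm v.asIdeal : ℕ) : 𝓞 K) ∈ v.asIdeal := by
        rw [Nat.cast_mul, Nat.cast_prod, ← Finset.mul_prod_erase T _ hv]
        exact Ideal.mul_mem_left _ _ (Ideal.mul_mem_right _ _ (Ideal.absNorm_mem _))
      rw [mem_OneAt]
      exact lt_of_le_of_lt (hx1 v hN) (val_lt_one hN)

/-- reduction modulo `p` of the components at the primes dividing `N` -/
noncomputable def redN (p : ℕ) {K : Type} [Field K] [NumberField K] (P : Finset (HeightOneSpectrum (𝓞 K))) :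
    Dv K →+ (P → ZMod p) :=
  AddMonoidHom.pi fun v => (Int.castAddHom (ZMod p)).comp (Finsupp.applyAddHom v.1)

theorem index_ne_zero (S : Set (K →+* ℂ_[p])) (T : Finset (HeightOneSpectrum (𝓞 K))) (χ : Dv K →+ Additive ℂˣ)
    (N : ℕ) (hN : N ≠ 0) (h : ∀ x ∈ Ray K N, x ∈ Qg S T χ) : (NQ S T χ).index ≠ 0 := by
  classical
  have hpp : p.Prime := Fact.out
  have : NeZero p := ⟨hpp.ne_zero⟩
  have h1 : RayD K N ≤ NQ S T χ := by
    unfold RayD
    rw [AddSubgroup.closure_le]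
    rintro _ ⟨x, hx, rfl⟩
    exact prin_mem_NQ (h x hx)
  have h2 : (NQ S T χ).relIndex (Pr K N) ≠ 0 := fun h0 =>
    Pool.Agent.Q225.AR.fin K N hN (Nat.eq_zero_of_zero_dvd (h0 ▸ AddSubgroup.relIndex_dvd_of_le_left (Pr K N) h1))
  let P : Finset (HeightOneSpectrum (𝓞 K)) := (Pool.Agent.Q125.AR.finite_dvd (F := K) hN).toFinset
  have hP : ∀ v, v ∈ P ↔ (N : 𝓞 K) ∈ v.asIdeal := fun v => Set.Finite.mem_toFinset _
  have h3 : (redN p P).ker ≤ NQ S T χ ⊔ Pr K N := by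
    intro D hD
    have h4 : ∀ v ∈ P, (p : ℤ) ∣ D v := by
      intro v hv
      have h5 := congrFun (AddMonoidHom.mem_ker.1 hD) ⟨v, hv⟩
      exact (ZMod.intCast_zmod_eq_zero_iff_dvd _ _).1 h5
    have h5 : D = p • (∑ v ∈ P, Finsupp.single v (D v / p)) + (D - p • (∑ v ∈ P, Finsupp.single v (D v / p))) := by
      abel
    rw [h5]
    refine AddSubgroup.add_mem_sup (smul_mem_NQ _) ?_
    intro v hv
    rw [Finsupp.sub_apply, Finsupp.smul_apply, Finsupp.finsetSum_apply, Finset.sum_eq_single v]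
    · rw [Finsupp.single_eq_same, nsmul_eq_mul, Int.mul_ediv_cancel' (h4 v ((hP v).2 hv)), sub_self]
    · intro w _ hwv
      exact Finsupp.single_eq_of_ne (Ne.symm hwv)
    · intro hv'
      exact absurd ((hP v).2 hv) hv'
  have h4 : (redN p P).ker.index ≠ 0 := by
    rw [AddSubgroup.index_ker]
    exact Nat.card_pos.ne'
  have h5 : (NQ S T χ ⊔ Pr K N).index ≠ 0 := fun h0 => h4 (Nat.eq_zero_of_zero_dvd (h0 ▸ AddSubgroup.index_dvd_of_le h3))
  have h6 := AddSubgroup.relIndex_mul_index (le_sup_left : NQ S T χ ≤ NQ S T χ ⊔ Pr K N)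
  rw [← h6]
  refine mul_ne_zero ?_ h5
  rw [sup_comm, AddSubgroup.relIndex_sup_right]
  exact h2

end

theorem fi : S_FI := by
  intro p _ K _ _ S T χ _
  obtain ⟨N, hN, h⟩ := exists_N S T χ
  exact ⟨index_ne_zero S T χ N hN h, N, hN, h⟩

end Pool.Agent.Q222.SH
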