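import Pool.Agent.Q222.SH.Main

/-!
# Undecidability
-/

set_option autoImplicit false

namespace Q222.SH

open Pool.Agent.H109R3.CF

theorem prim_chn {k : ℕ} (ls : List (Fin k)) (A E : Fin k) :
    Primrec fun m => chn ls A E m := by
  have h1 : Primrec fun m : ℕ => (List.range (m + 1)).map fun j => (j + 1, A, j + 2) := by
    refine Primrec.list_map (Primrec.list_range.comp Primrec.succ) ?_
    refine Primrec.pair (Primrec.succ.comp Primrec.snd) (Primrec.pair (Primrec.const A) ?_)
    exact Primrec.succ.comp (Primrec.succ.comp Primrec.snd)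
  have hm2 : Primrec fun m : ℕ => m + 2 := Primrec.succ.comp Primrec.succ
  have hm3 : Primrec fun m : ℕ => m + 3 := Primrec.succ.comp hm2
  have h2 : Primrec fun m : ℕ => [(m + 2, A, m + 2), (m + 2, E, m + 3)] := by
    refine Primrec.list_cons.comp (Primrec.pair hm2 (Primrec.pair (Primrec.const A) hm2)) ?_
    exact Primrec.list_cons.comp (Primrec.pair hm2 (Primrec.pair (Primrec.const E) hm3))
      (Primrec.const [])
  have h3 : Primrec fun m : ℕ => (List.range m).map fun j => (j + 1, E, m + 3) := by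
    refine Primrec.list_map Primrec.list_range ?_
    exact Primrec.pair (Primrec.succ.comp Primrec.snd)
      (Primrec.pair (Primrec.const E) (hm3.comp Primrec.fst))
  have h4 : Primrec fun m : ℕ => ls.map fun x => (m + 3, x, m + 3) := by
    refine Primrec.list_map (Primrec.const ls) ?_
    exact Primrec.pair (hm3.comp Primrec.fst) (Primrec.pair Primrec.snd (hm3.comp Primrec.fst))
  exact Primrec.list_append.comp (Primrec.const _) (Primrec.list_append.comp h1
    (Primrec.list_append.comp h2 (Primrec.list_append.comp h3 h4)))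

theorem prim_pr3 {k : ℕ} (wt : Fin k → ℕ) (B : ℕ) :
    Primrec fun Δ : List (ℕ × Fin k × ℕ) => pr3 wt B Δ := by
  refine Primrec.list_flatMap Primrec.id ?_
  refine Primrec.list_map (Primrec.const [0, 1, 2]) ?_
  have hw : Primrec wt := Primrec.dom_finite wt
  have t1 : Primrec fun x : (List (ℕ × Fin k × ℕ) × (ℕ × Fin k × ℕ)) × ℕ => x.1.2.1 :=
    Primrec.fst.comp (Primrec.snd.comp Primrec.fst)
  have t2 : Primrec fun x : (List (ℕ × Fin k × ℕ) × (ℕ × Fin k × ℕ)) × ℕ => x.1.2.2.1 :=
    Primrec.fst.comp (Primrec.snd.comp (Primrec.snd.comp Primrec.fst))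
  have t3 : Primrec fun x : (List (ℕ × Fin k × ℕ) × (ℕ × Fin k × ℕ)) × ℕ => x.1.2.2.2 :=
    Primrec.snd.comp (Primrec.snd.comp (Primrec.snd.comp Primrec.fst))
  have tv : Primrec fun x : (List (ℕ × Fin k × ℕ) × (ℕ × Fin k × ℕ)) × ℕ => x.2 := Primrec.snd
  have a1 : Primrec fun x : (List (ℕ × Fin k × ℕ) × (ℕ × Fin k × ℕ)) × ℕ =>
      B + (3 * x.1.2.1 + x.2) :=
    Primrec.nat_add.comp (Primrec.const B)
      (Primrec.nat_add.comp (Primrec.nat_mul.comp (Primrec.const 3) t1) tv)
  have a3 : Primrec fun x : (List (ℕ × Fin k × ℕ) × (ℕ × Fin k × ℕ)) × ℕ =>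
      B + (3 * x.1.2.2.2 + (x.2 + wt x.1.2.2.1) % 3) :=
    Primrec.nat_add.comp (Primrec.const B)
      (Primrec.nat_add.comp (Primrec.nat_mul.comp (Primrec.const 3) t3)
        (Primrec.nat_mod.comp (Primrec.nat_add.comp tv (hw.comp t2)) (Primrec.const 3)))
  exact Primrec.pair a1 (Primrec.pair t2 a3)

/-- automaton for the words with a wrong first block -/
def c1 {k : ℕ} (wt : Fin k → ℕ) (B : ℕ) (A E : Fin k) (m : ℕ) : NFAc (Fin k) :=
  ([B], pr3 wt B (chn (List.finRange k) A E m), [B + 3 * (m + 3)])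

theorem lng_c1 {k : ℕ} (wt : Fin k → ℕ) (B : ℕ) (A E : Fin k) (m : ℕ) (w : List (Fin k)) :
    w ∈ lng (c1 wt B A E m) ↔ (w.map wt).sum % 3 = 0 ∧
      ∃ x j y, j ≠ m ∧ w = x :: (List.replicate j A ++ E :: y) := by
  have hls : ∀ a, a ∈ List.finRange k := List.mem_finRange
  have h0 := Rn_pr3 (wt := wt) (B := B) (Δ := chn (List.finRange k) A E m) w 0 0
    (B + 3 * (m + 3)) (by omega)
  simp only [mul_zero, add_zero, zero_add] at h0
  constructor
  · rintro ⟨p, hp, q, hq, hr⟩
    simp only [c1, List.mem_cons, List.not_mem_nil, or_false] at hp hq hr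
    subst hp hq
    obtain ⟨q, h1, h2⟩ := h0.1 hr
    have h3 : (w.map wt).sum % 3 < 3 := Nat.mod_lt _ (by omega)
    have h4 : q = m + 3 := by omega
    subst h4
    exact ⟨by omega, (chn_iff hls w).1 h1⟩
  · rintro ⟨h1, h2⟩
    refine ⟨B, by simp [c1], B + 3 * (m + 3), by simp [c1], ?_⟩
    refine h0.2 ⟨m + 3, (chn_iff hls w).2 h2, by omega⟩

theorem Sat_c1 {k : ℕ} (wt : Fin k → ℕ) (B : ℕ) (A E : Fin k) (m : ℕ) :
    Sat (fun p => ¬ p < B) (c1 wt B A E m) := by
  refine ⟨?_, ?_, ?_⟩
  · intro p hp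
    simp only [c1, List.mem_cons, List.not_mem_nil, or_false] at hp
    omega
  · intro p a q h
    obtain ⟨p', a', q', v, -, -, h⟩ := mem_pr3.1 h
    simp only [Prod.mk.injEq] at h
    omega
  · intro p hp
    simp only [c1, List.mem_cons, List.not_mem_nil, or_false] at hp
    omega

/-- There are a fixed language `M.lang` of a deterministic one-counter machine with one reversal,
and a computable family of finite automata, such that it is undecidable whether each word is a
shuffle of a word of the automaton and a word of `M.lang`. -/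
theorem main : ∃ (k : ℕ) (M : DCM (Fin k)) (H : ℕ → Prop) (code : ℕ → NFAc (Fin k)),
    M.OneReversal ∧ ¬ ComputablePred H ∧ Computable code ∧
    ∀ n, (∀ w : List (Fin k), ∃ u ∈ lng (code n), ∃ v ∈ M.lang, Shuf u v w) ↔ ¬ H n := by
  obtain ⟨T, p0, N, hN, hT, hu⟩ := exists_tr'
  have hfin : Finite (Sg (La T)) := inferInstance
  obtain ⟨k, ⟨e⟩⟩ := Finite.exists_equiv_fin (Sg (La T))
  obtain ⟨σ, hσ, D, hD⟩ := reg_Fx (p0 := p0) hT
  let f : Fin k → Sg (La T) := e.symm
  let B : ℕ := Fintype.card σ
  let wk : Fin k → ℕ := fun a => wtf (f a)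
  let code : ℕ → NFAc (Fin k) := fun n => uni (cdfa f D) (c1 wk B (e .A) (e .E) (KK T * N n))
  refine ⟨k, (MM T).comap f, fun n => HaltsT T (some p0) (N n), code, ?_, hu, ?_, ?_⟩
  · exact DCM.comap_rev _ _ (MM_rev T)
  · have h1 : Primrec fun m : ℕ => c1 wk B (e .A) (e .E) m := by
      refine Primrec.pair (Primrec.const _) (Primrec.pair ?_ ?_)
      · exact (prim_pr3 wk B).comp (prim_chn _ _ _)
      · refine Primrec.list_cons.comp ?_ (Primrec.const [])
        exact Primrec.nat_add.comp (Primrec.const B) (Primrec.nat_mul.comp (Primrec.const 3)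
          (Primrec.succ.comp (Primrec.succ.comp Primrec.succ)))
    have h2 : Primrec fun m : ℕ => uni (cdfa f D) (c1 wk B (e .A) (e .E) m) := by
      refine Primrec.pair ?_ (Primrec.pair ?_ ?_)
      · exact Primrec.list_append.comp (Primrec.const _) (Primrec.fst.comp h1)
      · exact Primrec.list_append.comp (Primrec.const _) (Primrec.fst.comp (Primrec.snd.comp h1))
      · exact Primrec.list_append.comp (Primrec.const _) (Primrec.snd.comp (Primrec.snd.comp h1))
    have h3 : Primrec fun x : ℕ => KK T * x := Primrec.nat_mul.comp (Primrec.const _) Primrec.id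
    exact (h2.comp h3).to_comp.comp hN
  · intro n
    have hL : ∀ w : List (Fin k), w ∈ lng (code n) ↔ w.map f ∈ L1 T p0 (KK T * N n) := by
      intro w
      have h1 : w ∈ lng (code n) ↔ w ∈ lng (cdfa f D) ∪ lng (c1 wk B (e .A) (e .E) (KK T * N n)) := by
        rw [← lng_uni (Sat_cdfa f D) (Sat_c1 _ _ _ _ _)]
      rw [h1, Set.mem_union, lng_cdfa, lng_c1, hD]
      have h2 : (w.map wk).sum = wt (w.map f) := by
        unfold wt
        rw [List.map_map]
        rfl
      have h3 : (∃ x j y, j ≠ KK T * N n ∧ w = x :: (List.replicate j (e .A) ++ e .E :: y)) ↔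
          ∃ x j y, j ≠ KK T * N n ∧ w.map f = x :: (ra j ++ .E :: y) := by
        constructor
        · rintro ⟨x, j, y, hj, rfl⟩
          refine ⟨f x, j, y.map f, hj, ?_⟩
          simp [f, ra]
        · rintro ⟨x, j, y, hj, h4⟩
          refine ⟨e x, j, y.map e, hj, ?_⟩
          have h5 := congrArg (List.map e) h4
          rw [List.map_map] at h5
          have h6 : (e ∘ f : Fin k → Fin k) = id := by funext a; simp [f]
          rw [h6, List.map_id] at h5
          rw [h5]
          simp [ra]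
      rw [h2, h3]
      exact Iff.rfl
    have hM : ∀ v : List (Fin k), v ∈ ((MM T).comap f).lang ↔ v.map f ∈ L2 T := by
      intro v
      rw [DCM.comap_lang, MM_lang]
      exact Iff.rfl
    have ef : ∀ w : List (Sg (La T)), (w.map e).map f = w := by
      intro w
      rw [List.map_map]
      have h6 : (f ∘ e : Sg (La T) → Sg (La T)) = id := by funext a; simp [f]
      rw [h6, List.map_id]
    have fe : ∀ w : List (Fin k), (w.map f).map e = w := by
      intro w
      rw [List.map_map]
      have h6 : (e ∘ f : Fin k → Fin k) = id := by funext a; simp [f]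
      rw [h6, List.map_id]
    constructor
    · intro h hh
      obtain ⟨w, hw⟩ := claimB hT hh
      obtain ⟨u, h1, v, h2, h3⟩ := h (w.map e)
      have h4 := h3.map f
      rw [ef] at h4
      exact hw ⟨u.map f, (hL u).1 h1, v.map f, (hM v).1 h2, h4⟩
    · intro hh w
      obtain ⟨u, h1, v, h2, h3⟩ := claimA hT hh (w.map f)
      have h4 := h3.map e
      rw [fe] at h4
      refine ⟨u.map e, (hL _).2 ?_, v.map e, (hM _).2 ?_, h4⟩
      · rw [ef]; exact h1
      · rw [ef]; exact h2

end Q222.SH
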