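import Pool.Agent.Q222.SH.FI
import Pool.Agent.Q299.EX.Cnt

/-!
Project SH (helper5), job MV (helper222).
-/

set_option autoImplicit false
set_option linter.unusedSectionVars false

namespace Pool.Agent.Q222.SH

open NumberField IsDedekindDomain Module Pool.Agent.Y18.LC Pool.Agent.Q5.SG Pool.Agent.Q5.SH
open Pool.Agent.Q92.AR (Dv prin Pr Ray RayD Cong Pos SupF prin_mul prin_one prin_inv prin_div prinHom)

section

variable {p : ℕ} [Fact p.Prime] {K : Type} [Field K] [NumberField K]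

/-- close to `1` at the prime of the embedding -/
theorem close_of_val {k : ℕ} {x : K} (σ : K →+* ℂ_[p])
    (hx : (Pool.Agent.Q290.SG.VV σ).valuation K (x - 1) ≤ (Pool.Agent.Q290.SG.VV σ).valuation K ((p : K) ^ k)) :
    ‖σ x - 1‖ ≤ ((p : ℝ)⁻¹) ^ k := by
  have hp0 : (p : K) ^ k ≠ 0 := pow_ne_zero _ (Nat.cast_ne_zero.2 (Fact.out : p.Prime).ne_zero)
  have h1 : ‖σ ((x - 1) / (p : K) ^ k)‖ ≤ 1 := by
    apply Pool.Agent.Q290.SG.norm_le_one σ
    rw [map_div₀]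
    have h3 : (Pool.Agent.Q290.SG.VV σ).valuation K ((p : K) ^ k) ≠ 0 := (Valuation.ne_zero_iff _).2 hp0
    exact (div_le_one₀ (zero_lt_iff.2 h3)).2 hx
  have h2 : σ x - 1 = σ ((x - 1) / (p : K) ^ k) * (p : ℂ_[p]) ^ k := by
    rw [map_div₀, map_pow, map_natCast, map_sub, map_one, div_mul_cancel₀]
    exact pow_ne_zero _ (Nat.cast_ne_zero.2 (Fact.out : p.Prime).ne_zero)
  have h3 : ‖(p : ℂ_[p])‖ = (p : ℝ)⁻¹ := by
    have h := norm_algebraMap' ℂ_[p] ((p : ℕ) : ℚ_[p])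
    rw [map_natCast, Padic.norm_p] at h
    exact h
  rw [h2, norm_mul, norm_pow, h3]
  exact mul_le_of_le_one_left (by positivity) h1

theorem VV_mem_PSet {S : Set (K →+* ℂ_[p])} {σ : K →+* ℂ_[p]} (hσ : σ ∈ S) :
    Pool.Agent.Q290.SG.VV σ ∈ PSet S :=
  ⟨Pool.Agent.Q290.SG.p_mem_PI σ, σ, hσ, fun _ => Iff.rfl⟩

/-- an element of given order at a prime -/
theorem exists_order (v : HeightOneSpectrum (𝓞 K)) (k : ℤ) : ∃ x : Kˣ, prin x v = k := by
  obtain ⟨π, hπ⟩ := v.valuation_exists_uniformizer K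
  have hπ0 : π ≠ 0 := by
    rintro rfl
    rw [map_zero] at hπ
    exact WithZero.exp_ne_zero hπ.symm
  refine ⟨(Units.mk0 π hπ0) ^ k, ?_⟩
  have h1 := Pool.Agent.Q128.AR.val_prin ((Units.mk0 π hπ0) ^ k) v
  rw [Units.val_zpow_eq_zpow_val, Units.val_mk0, map_zpow₀, hπ, ← WithZero.exp_zsmul, WithZero.exp_inj] at h1
  simp only [smul_eq_mul, mul_neg, mul_one, neg_inj] at h1
  exact h1.symm

theorem prin_eq_of_div {v : HeightOneSpectrum (𝓞 K)} {x y : Kˣ} (h : v.valuation K ((x : K) / (y : K) - 1) < 1) :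
    prin x v = prin y v := by
  have h1 := val_eq_one_of_sub h
  have h2 := Pool.Agent.Q128.AR.val_prin (x / y) v
  rw [Units.val_div_eq_div_val, h1, ← WithZero.exp_zero, WithZero.exp_inj, prin_div, Finsupp.sub_apply] at h2
  omega

/-- exponents -/
theorem exists_exp_le' (N : ℕ) (hN : N ≠ 0) : ∃ n : ℕ, 1 ≤ n ∧ ∀ v : HeightOneSpectrum (𝓞 K),
    (N : 𝓞 K) ∈ v.asIdeal → WithZero.exp (-(n : ℤ)) ≤ v.valuation K (N : K) := by
  classical
  have hN' : (N : K) ≠ 0 := by exact_mod_cast hN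
  let P : Finset (HeightOneSpectrum (𝓞 K)) := (Pool.Agent.Q125.AR.finite_dvd (F := K) hN).toFinset
  have hP : ∀ v, v ∈ P ↔ (N : 𝓞 K) ∈ v.asIdeal := fun v => Set.Finite.mem_toFinset _
  refine ⟨∑ v ∈ P, (prin (Units.mk0 (N : K) hN') v).toNat + 1, by omega, fun v hv => ?_⟩
  have h1 := Pool.Agent.Q128.AR.val_prin (Units.mk0 (N : K) hN') v
  rw [Units.val_mk0] at h1
  rw [h1, WithZero.exp_le_exp, neg_le_neg_iff]
  have h2 : (prin (Units.mk0 (N : K) hN') v).toNat ≤ ∑ v ∈ P, (prin (Units.mk0 (N : K) hN') v).toNat :=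
    Finset.single_le_sum (f := fun v => (prin (Units.mk0 (N : K) hN') v).toNat) (fun _ _ => Nat.zero_le _) ((hP v).2 hv)
  have h3 : prin (Units.mk0 (N : K) hN') v ≤ ((prin (Units.mk0 (N : K) hN') v).toNat : ℤ) := Int.self_le_toNat _
  have h4 : ((prin (Units.mk0 (N : K) hN') v).toNat : ℤ) ≤ ((∑ v ∈ P, (prin (Units.mk0 (N : K) hN') v).toNat : ℕ) : ℤ) := by
    exact_mod_cast h2
  rw [Nat.cast_add, Nat.cast_one]
  linarith

end

theorem mv : S_MV := by
  classical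
  intro p _ K _ _ S T χ _ N' hN' D
  have hp0 : p ≠ 0 := (Fact.out : p.Prime).ne_zero
  obtain ⟨n, hn1, hn⟩ := exists_exp_le' (K := K) (p ^ 2) (pow_ne_zero _ hp0)
  have hPf : ({v : HeightOneSpectrum (𝓞 K) | (N' : 𝓞 K) ∈ v.asIdeal} ∪
      ({v : HeightOneSpectrum (𝓞 K) | ((p ^ 2 : ℕ) : 𝓞 K) ∈ v.asIdeal} ∪ (T : Set (HeightOneSpectrum (𝓞 K))))).Finite :=
    (Pool.Agent.Q125.AR.finite_dvd (F := K) hN').union
      ((Pool.Agent.Q125.AR.finite_dvd (F := K) (pow_ne_zero 2 hp0)).union T.finite_toSet)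
  choose w hw using fun v : HeightOneSpectrum (𝓞 K) => exists_order v (D v)
  let Z : Set (HeightOneSpectrum (𝓞 K)) := (T : Set (HeightOneSpectrum (𝓞 K))) ∪ PSet S
  obtain ⟨z, hz⟩ := Pool.Agent.Q299.EX.approx hPf (fun v => if v ∈ Z then 1 else w v) (fun _ => n) (fun _ => hn1)
  have hexp : WithZero.exp (-(n : ℤ)) < (1 : WithZero (Multiplicative ℤ)) := by
    rw [← WithZero.exp_zero, WithZero.exp_lt_exp]
    omega
  have hzQ : z ∈ Qg S T χ := by
    rw [mem_Qg]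
    constructor
    · intro σ hσ
      rw [Algebra.algebraMap_self, RingHom.comp_id] at hσ
      apply close_of_val
      have h1 : ((p ^ 2 : ℕ) : 𝓞 K) ∈ (Pool.Agent.Q290.SG.VV σ).asIdeal := by
        rw [Nat.cast_pow]
        exact Ideal.pow_mem_of_mem _ (Pool.Agent.Q290.SG.p_mem_PI σ) _ (by norm_num)
      have h2 := hz (Pool.Agent.Q290.SG.VV σ) (Or.inr (Or.inl h1))
      rw [if_pos (show Pool.Agent.Q290.SG.VV σ ∈ Z from Or.inr (VV_mem_PSet hσ)), Units.val_one, div_one] at h2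
      refine h2.trans ?_
      have h3 := hn _ h1
      rwa [Nat.cast_pow] at h3
    · intro v hv
      apply mem_Loc_of_one
      rw [mem_OneAt]
      have h2 := hz v (Or.inr (Or.inr (Finset.mem_coe.2 hv)))
      rw [if_pos (show v ∈ Z from Or.inl (Finset.mem_coe.2 hv)), Units.val_one, div_one] at h2
      exact lt_of_le_of_lt h2 hexp
  refine ⟨(D - prin z) - (D - prin z).filter (fun v => v ∈ Z), ?_, ?_⟩
  · intro v hv
    rw [Finsupp.sub_apply]
    by_cases hvZ : v ∈ Z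
    · rw [Finsupp.filter_apply_pos _ _ hvZ, sub_self]
    · rw [Finsupp.filter_apply_neg _ _ hvZ, sub_zero, Finsupp.sub_apply]
      have h2 := hz v (Or.inl hv)
      rw [if_neg hvZ] at h2
      rw [prin_eq_of_div (lt_of_le_of_lt h2 hexp), hw, sub_self]
  · have h1 : D - ((D - prin z) - (D - prin z).filter (fun v => v ∈ Z)) =
        prin z + (D - prin z).filter (fun v => v ∈ Z) := by abel
    rw [h1]
    refine add_mem (prin_mem_NQ hzQ) (sup_mem_NQ ?_)
    intro v hv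
    exact Finsupp.filter_apply_neg _ _ hv

end Pool.Agent.Q222.SH
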