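import Mathlib

/-!
# Shuffles of block words
-/

set_option autoImplicit false

namespace Q222.SH

/-- `Shuf u v w`: `w` is a shuffle of `u` and `v` -/
inductive Shuf {α : Type} : List α → List α → List α → Prop
  | nil : Shuf [] [] []
  | left {a : α} {u v w : List α} : Shuf u v w → Shuf (a :: u) v (a :: w)
  | right {a : α} {u v w : List α} : Shuf u v w → Shuf u (a :: v) (a :: w)

namespace Shuf

variable {α β : Type}

theorem symm {u v w : List α} (h : Shuf u v w) : Shuf v u w := by
  induction h with
  | nil => exact .nil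
  | left _ ih => exact .right ih
  | right _ ih => exact .left ih

theorem id_left (u : List α) : Shuf u [] u := by
  induction u with
  | nil => exact .nil
  | cons a u ih => exact .left ih

theorem eq_left {u w : List α} (h : Shuf u [] w) : u = w := by
  generalize hv : ([] : List α) = v at h
  induction h with
  | nil => rfl
  | left _ ih => rw [ih hv]
  | right _ _ => cases hv

theorem nils {u v : List α} (h : Shuf u v []) : u = [] ∧ v = [] := by
  generalize hw : ([] : List α) = w at h
  cases h with
  | nil => exact ⟨rfl, rfl⟩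
  | left _ => cases hw
  | right _ => cases hw

theorem append {u v w u' v' w' : List α} (h : Shuf u v w) (h' : Shuf u' v' w') :
    Shuf (u ++ u') (v ++ v') (w ++ w') := by
  induction h with
  | nil => exact h'
  | left _ ih => exact .left ih
  | right _ ih => exact .right ih

theorem map {u v w : List α} (f : α → β) (h : Shuf u v w) :
    Shuf (u.map f) (v.map f) (w.map f) := by
  induction h with
  | nil => exact .nil
  | left _ ih => exact .left ih
  | right _ ih => exact .right ih

theorem middle (x y z : List α) : Shuf (x ++ z) y (x ++ y ++ z) := by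
  have h := ((id_left x).append (id_left y).symm).append (id_left z)
  simpa using h

theorem cons_right {a : α} {u v w : List α} (h : Shuf u (a :: v) w) :
    ∃ X w' u', w = X ++ a :: w' ∧ u = X ++ u' ∧ Shuf u' v w' := by
  generalize hv : a :: v = v' at h
  induction h with
  | nil => cases hv
  | @left b u _ w h ih =>
    obtain ⟨X, w', u', rfl, rfl, h'⟩ := ih hv
    exact ⟨b :: X, w', u', rfl, rfl, h'⟩
  | @right b u _ w h ih =>
    obtain ⟨rfl, rfl⟩ := List.cons.inj hv
    exact ⟨[], w, u, rfl, rfl, h⟩

theorem pair_right {a b : α} {u w : List α} (h : Shuf u [a, b] w) :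
    ∃ X Y Z, w = X ++ a :: (Y ++ b :: Z) ∧ u = X ++ (Y ++ Z) := by
  obtain ⟨X, w', u', rfl, rfl, h1⟩ := cons_right h
  obtain ⟨Y, Z, Z', rfl, rfl, h2⟩ := cons_right h1
  rw [eq_left h2]
  exact ⟨X, Y, Z, rfl, rfl⟩

theorem count {u v w : List α} (h : Shuf u v w) (f : α → ℤ) :
    (w.map f).sum = (u.map f).sum + (v.map f).sum := by
  induction h with
  | nil => simp
  | left _ ih => simp [ih, add_assoc]
  | right _ ih => simp [ih]; ring

/-- the shuffle of two words, by blocks -/
theorem iff_blocks {u v w : List α} : Shuf u v w ↔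
    ∃ l : List (List α × List α), l ≠ [] ∧ u = (l.map Prod.fst).flatten ∧
      v = (l.map Prod.snd).flatten ∧ w = (l.map fun p => p.1 ++ p.2).flatten := by
  constructor
  · intro h
    induction h with
    | nil => exact ⟨[([], [])], by simp⟩
    | @left a u v w _ ih =>
      obtain ⟨l, -, rfl, rfl, rfl⟩ := ih
      exact ⟨([a], []) :: l, by simp⟩
    | @right a u v w _ ih =>
      obtain ⟨l, -, rfl, rfl, rfl⟩ := ih
      exact ⟨([], [a]) :: l, by simp⟩
  · rintro ⟨l, -, rfl, rfl, rfl⟩
    induction l with
    | nil => exact .nil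
    | cons p l ih =>
      simp only [List.map_cons, List.flatten_cons]
      refine Shuf.append ?_ ih
      have := (id_left p.1).append (id_left p.2).symm
      simpa using this

end Shuf

/-! ### Blocks -/

/-- letters -/
inductive Sg (Λ : Type) : Type
  | H (c : Fin 3) (l : Λ)
  | A
  | E

/-- block lists: colour, label, number -/
abbrev Bl (Λ : Type) : Type := Fin 3 × Λ × ℕ

variable {Λ : Type}

/-- `A^k` -/
def ra (k : ℕ) : List (Sg Λ) := List.replicate k .A

/-- the word of one block -/
def blk (b : Bl Λ) : List (Sg Λ) := .H b.1 b.2.1 :: (ra b.2.2 ++ [.E])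

/-- the word of a block list -/
def flat (b : List (Bl Λ)) : List (Sg Λ) := b.flatMap blk

@[simp] theorem flat_nil : flat ([] : List (Bl Λ)) = [] := rfl

theorem flat_cons (b : Bl Λ) (l : List (Bl Λ)) :
    flat (b :: l) = .H b.1 b.2.1 :: (ra b.2.2 ++ .E :: flat l) := by
  simp [flat, blk]

theorem flat_append (l l' : List (Bl Λ)) : flat (l ++ l') = flat l ++ flat l' := by
  simp [flat]

theorem ra_succ (k : ℕ) : (ra (k + 1) : List (Sg Λ)) = .A :: ra k := by
  simp [ra, List.replicate_succ]

theorem ra_zero : (ra 0 : List (Sg Λ)) = [] := rfl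

theorem flat_ne {bv : List (Bl Λ)} {a : Sg Λ} {v : List (Sg Λ)} (h : flat bv = a :: v) :
    ∃ c l, a = .H c l := by
  cases bv with
  | nil => simp at h
  | cons b bv =>
    rw [flat_cons, List.cons.injEq] at h
    exact ⟨_, _, h.1.symm⟩

theorem inn (k : ℕ) : ∀ (k' : ℕ) (U V W : List (Sg Λ)) (bv : List (Bl Λ)), V = flat bv →
    Shuf (ra k' ++ .E :: U) V (ra k ++ .E :: W) → k = k' ∧ Shuf U V W := by
  induction k with
  | zero =>
    intro k' U V W bv hV h
    rw [ra_zero, List.nil_append] at h
    generalize hX : ra k' ++ Sg.E :: U = X at h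
    cases h with
    | left h =>
      cases k' with
      | zero =>
        rw [ra_zero, List.nil_append, List.cons.injEq] at hX
        obtain ⟨-, rfl⟩ := hX
        exact ⟨rfl, h⟩
      | succ k' => simp [ra_succ] at hX
    | right h =>
      obtain ⟨c, l, h'⟩ := flat_ne hV.symm
      cases h'
  | succ k ih =>
    intro k' U V W bv hV h
    rw [ra_succ, List.cons_append] at h
    generalize hX : ra k' ++ Sg.E :: U = X at h
    cases h with
    | left h =>
      cases k' with
      | zero => simp [ra_zero] at hX
      | succ k' =>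
        rw [ra_succ, List.cons_append, List.cons.injEq] at hX
        obtain ⟨-, rfl⟩ := hX
        obtain ⟨rfl, h1⟩ := ih k' U V W bv hV h
        exact ⟨rfl, h1⟩
    | right h =>
      obtain ⟨c, l, h'⟩ := flat_ne hV.symm
      cases h'

theorem Shuf.blocks (bw : List (Bl Λ)) : ∀ bu bv : List (Bl Λ),
    Shuf (flat bu) (flat bv) (flat bw) → Shuf bu bv bw := by
  induction bw with
  | nil =>
    intro bu bv h
    obtain ⟨h1, h2⟩ := Shuf.nils h
    cases bu with
    | cons b bu => rw [flat_cons] at h1; cases h1
    | nil =>
      cases bv with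
      | cons b bv => rw [flat_cons] at h2; cases h2
      | nil => exact .nil
  | cons b bw ih =>
    intro bu bv h
    rw [flat_cons] at h
    generalize hX : flat bu = X at h
    generalize hY : flat bv = Y at h
    cases h with
    | left h =>
      cases bu with
      | nil => cases hX
      | cons b' bu =>
        rw [flat_cons, List.cons.injEq] at hX
        obtain ⟨h1, rfl⟩ := hX
        obtain ⟨h2, h3⟩ := inn _ _ _ _ _ bv hY.symm h
        rw [← hY] at h3
        have : b' = b := by
          obtain ⟨c, l, k⟩ := b
          obtain ⟨c', l', k'⟩ := b'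
          simp only [Sg.H.injEq] at h1
          obtain ⟨rfl, rfl⟩ := h1
          simp only at h2
          rw [h2]
        rw [this]
        exact .left (ih _ _ h3)
    | right h =>
      cases bv with
      | nil => cases hY
      | cons b' bv =>
        rw [flat_cons, List.cons.injEq] at hY
        obtain ⟨h1, rfl⟩ := hY
        obtain ⟨h2, h3⟩ := inn _ _ _ _ _ bu hX.symm h.symm
        rw [← hX] at h3
        have : b' = b := by
          obtain ⟨c, l, k⟩ := b
          obtain ⟨c', l', k'⟩ := b'
          simp only [Sg.H.injEq] at h1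
          obtain ⟨rfl, rfl⟩ := h1
          simp only at h2
          rw [h2]
        rw [this]
        exact .right (ih _ _ h3.symm)

/-- colours go up by one -/
def inc (d : Fin 3) : List (Bl Λ) → Prop
  | [] => True
  | x :: b => x.1 = d + 1 ∧ inc x.1 b

/-- colours go up by one or stay -/
def inc' (d : Fin 3) : List (Bl Λ) → Prop
  | [] => True
  | x :: b => (x.1 = d ∨ x.1 = d + 1) ∧ inc' x.1 b

theorem inc_inc' {d : Fin 3} {b : List (Bl Λ)} (h : inc d b) : inc' d b := by
  induction b generalizing d with
  | nil => trivial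
  | cons x b ih => exact ⟨Or.inr h.1, ih h.2⟩

theorem fin3_a : ∀ d c e f : Fin 3, c = d + 1 → e = c + 1 → f = e + 1 → f = d := by decide

theorem fin3_b : ∀ d c e : Fin 3, c = d + 1 → e = c + 1 → ¬ (e = d ∨ e = d + 1) := by decide

/-- removing two neighbours -/
theorem inc'_of_inc {d : Fin 3} {X Z : List (Bl Λ)} {a b : Bl Λ} (h : inc d (X ++ a :: b :: Z)) :
    inc' d (X ++ Z) := by
  induction X generalizing d with
  | nil =>
    obtain ⟨h1, h2, h3⟩ := h
    cases Z with
    | nil => trivial
    | cons z Z =>
      obtain ⟨h4, h5⟩ := h3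
      exact ⟨Or.inl (fin3_a _ _ _ _ h1 h2 h4), inc_inc' h5⟩
  | cons x X ih => exact ⟨Or.inr h.1, ih h.2⟩

/-- if the colours still fit then the removed blocks were neighbours -/
theorem neighbours {d : Fin 3} {X Y Z : List (Bl Λ)} {a b : Bl Λ}
    (h : inc d (X ++ a :: (Y ++ b :: Z))) (h' : inc' d (X ++ (Y ++ Z))) : Y = [] := by
  induction X generalizing d with
  | nil =>
    cases Y with
    | nil => rfl
    | cons y Y =>
      exfalso
      obtain ⟨h1, h2, -⟩ := h
      exact fin3_b _ _ _ h1 h2 h'.1
  | cons x X ih => exact ih h.2 h'.2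

end Q222.SH
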