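import Pool.Agent.Q222.SH.Src
import Pool.Agent.Q222.SH.Shuf

/-!
# Deterministic one-counter machines with one reversal
-/

set_option autoImplicit false

namespace Q222.SH

open Pool.Agent.H109R3.CF

/-- A deterministic real-time one-counter automaton: `move q a z` gives the next state and the
change of the counter (`-1`, `0` or `1`) when the letter `a` is read in state `q`; `z` tells
whether the counter is zero. A zero counter is never decremented. -/
structure DCM (α : Type) where
  Q : Type
  fin : Finite Q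
  start : Q
  acc : Q → Prop
  move : Q → α → Bool → Q × ℤ
  small : ∀ q a z, (move q a z).2 = -1 ∨ (move q a z).2 = 0 ∨ (move q a z).2 = 1
  nonneg : ∀ q a, (move q a true).2 ≠ -1

namespace DCM

variable {α β : Type}

/-- the move made in a configuration -/
def mv (M : DCM α) (x : M.Q × ℕ) (a : α) : M.Q × ℤ := M.move x.1 a (x.2 == 0)

/-- the next configuration (state, value of the counter) -/
def step (M : DCM α) (x : M.Q × ℕ) (a : α) : M.Q × ℕ :=
  ((M.mv x a).1, ((x.2 : ℤ) + (M.mv x a).2).toNat)

/-- the configuration after reading a word -/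
def run (M : DCM α) (w : List α) : M.Q × ℕ := w.foldl M.step (M.start, 0)

/-- the accepted language -/
def lang (M : DCM α) : Set (List α) := {w | M.acc (M.run w).1}

/-- In every computation the counter changes at most once from nondecreasing to nonincreasing
mode: after a decrement there is no increment. -/
def OneReversal (M : DCM α) : Prop :=
  ∀ (u v : List α) (a b : α), (M.mv (M.run u) a).2 = -1 → (M.mv (M.run (u ++ a :: v)) b).2 ≠ 1

/-- renaming of letters -/
def comap (M : DCM α) (f : β → α) : DCM β where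
  Q := M.Q
  fin := M.fin
  start := M.start
  acc := M.acc
  move := fun q b z => M.move q (f b) z
  small := fun q b z => M.small q (f b) z
  nonneg := fun q b => M.nonneg q (f b)

theorem comap_run (M : DCM α) (f : β → α) (w : List β) : (M.comap f).run w = M.run (w.map f) := by
  have : ∀ x : M.Q × ℕ, w.foldl (M.comap f).step x = (w.map f).foldl M.step x := by
    induction w with
    | nil => intro x; rfl
    | cons b w ih =>
      intro x
      simp only [List.foldl_cons, List.map_cons]
      exact ih _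
  exact this _

theorem comap_lang (M : DCM α) (f : β → α) : (M.comap f).lang = {w | w.map f ∈ M.lang} := by
  ext w
  change M.acc _ ↔ M.acc _
  rw [comap_run]

theorem comap_rev (M : DCM α) (f : β → α) (h : M.OneReversal) : (M.comap f).OneReversal := by
  intro u v a b h1
  have h2 := h (u.map f) (v.map f) (f a) (f b)
  have e1 : (M.comap f).mv ((M.comap f).run u) a = M.mv (M.run (u.map f)) (f a) := by
    rw [comap_run]; rfl
  have e2 : (M.comap f).mv ((M.comap f).run (u ++ a :: v)) b =
      M.mv (M.run (u.map f ++ f a :: v.map f)) (f b) := by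
    rw [comap_run, List.map_append, List.map_cons]; rfl
  rw [e1] at h1
  rw [e2]
  exact h2 h1

end DCM

/-! ### The machine -/

section

variable (T : List Tr)

/-- proper labels -/
abbrev Lab : Type := {τ : Tr // τ ∈ T}

instance : Finite (Lab T) := (List.finite_toSet T).to_subtype

/-- the numerator of the ratio -/
def rr (τ : Lab T) : ℕ := τ.1.2.2.2.1

/-- the denominator of the ratio -/
def ss (τ : Lab T) : ℕ := τ.1.2.1

/-- the number of letters per unit -/
def KK : ℕ := (T.map fun τ => τ.2.1 + τ.2.2.2.1).sum + 1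

instance : NeZero (KK T) := ⟨by unfold KK; omega⟩

theorem le_KK (τ : Lab T) : ss T τ + rr T τ ≤ KK T := by
  unfold KK ss rr
  have h : τ.1.2.1 + τ.1.2.2.2.1 ∈ T.map fun τ => τ.2.1 + τ.2.2.2.1 :=
    List.mem_map.2 ⟨τ.1, τ.2, rfl⟩
  have := List.single_le_sum (by simp) _ h
  omega

/-- the pairs of blocks recognized by the counter -/
def VV : Set (List (Sg (Option (Lab T)))) :=
  {w | ∃ (c : Fin 3) (τ τ' : Lab T) (k k' : ℕ), KK T ∣ k ∧ KK T ∣ k' ∧
    ss T τ * k' ≠ rr T τ * k ∧ w = flat [(c, some τ, k), (c + 1, some τ', k')]}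

/-- the counter language -/
def L2 : Set (List (Sg (Option (Lab T)))) :=
  {w | w = [] ∨ (∃ c l, w = [.H c l]) ∨ w = [.E] ∨ w ∈ VV T}

/-- states -/
inductive St : Type
  | st
  | one (c : Fin 3) (l : Option (Lab T))
  | b1 (c : Fin 3) (τ : Lab T) (j : ZMod (KK T))
  | mid (c : Fin 3) (τ : Lab T)
  | b2 (τ : Lab T) (j : ZMod (KK T))
  | ov (j : ZMod (KK T))
  | ac
  | dd

instance : Finite (St T) := by
  let f : St T → Fin 8 × Fin 3 × Option (Lab T) × ZMod (KK T) := fun q =>
    match q with
    | .st => (0, 0, none, 0)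
    | .one c l => (1, c, l, 0)
    | .b1 c τ j => (2, c, some τ, j)
    | .mid c τ => (3, c, some τ, 0)
    | .b2 τ j => (4, 0, some τ, j)
    | .ov j => (5, 0, none, j)
    | .ac => (6, 0, none, 0)
    | .dd => (7, 0, none, 0)
  refine Finite.of_injective f ?_
  intro x y h
  cases x <;> cases y <;>
    simp only [f, Prod.mk.injEq, Fin.reduceEq, false_and, Option.some.injEq, true_and, and_true] at h <;>
    first | rfl | (obtain ⟨rfl, rfl, rfl⟩ := h; rfl)

/-- moves -/
def mov (q : St T) (a : Sg (Option (Lab T))) (z : Bool) : St T × ℤ :=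
  match q, a with
  | .st, .H c l => (.one c l, 0)
  | .st, .E => (.one 0 none, 0)
  | .one c (some τ), .A => (.b1 c τ 1, if 0 < rr T τ then 1 else 0)
  | .one c (some τ), .E => (.mid c τ, 0)
  | .b1 c τ j, .A => (.b1 c τ (j + 1), if j.val < rr T τ then 1 else 0)
  | .b1 c τ j, .E => if j = 0 then (.mid c τ, 0) else (.dd, 0)
  | .mid c τ, .H c' (some _) => if c' = c + 1 then (.b2 τ 0, 0) else (.dd, 0)
  | .b2 τ j, .A =>
    if j.val < ss T τ then (if z = true then (.ov (j + 1), 0) else (.b2 τ (j + 1), -1))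
    else (.b2 τ (j + 1), 0)
  | .b2 _ j, .E => if j = 0 ∧ z = false then (.ac, 0) else (.dd, 0)
  | .ov j, .A => (.ov (j + 1), 0)
  | .ov j, .E => if j = 0 then (.ac, 0) else (.dd, 0)
  | _, _ => (.dd, 0)

/-- accepting states -/
def Ac (q : St T) : Prop :=
  match q with
  | .st => True
  | .one _ _ => True
  | .ac => True
  | _ => False

/-- the machine -/
def MM : DCM (Sg (Option (Lab T))) where
  Q := St T
  fin := inferInstance
  start := .st
  acc := Ac T
  move := mov T
  small := by
    intro q a z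
    rcases q with _ | ⟨c, _ | l⟩ | _ | _ | _ | _ | _ | _ <;> rcases a with ⟨c', _ | l'⟩ | _ | _ <;>
      simp only [mov] <;> (try split_ifs) <;> simp
  nonneg := by
    intro q a
    rcases q with _ | ⟨c, _ | l⟩ | _ | _ | _ | _ | _ | _ <;> rcases a with ⟨c', _ | l'⟩ | _ | _ <;>
      simp only [mov] <;> (try split_ifs) <;> simp

/-- late states -/
def late (q : St T) : Prop :=
  match q with
  | .b2 _ _ => True
  | .ov _ => True
  | .ac => True
  | .dd => True
  | _ => False

theorem late_mov {q : St T} (h : late T q) (a : Sg (Option (Lab T))) (z : Bool) :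
    late T (mov T q a z).1 ∧ (mov T q a z).2 ≠ 1 := by
  rcases q with _ | ⟨c, _ | l⟩ | _ | _ | _ | _ | _ | _ <;> simp only [late] at h <;>
    rcases a with ⟨c', _ | l'⟩ | _ | _ <;>
      simp only [mov] <;> (try split_ifs) <;> simp [late]

theorem dec_late {q : St T} {a : Sg (Option (Lab T))} {z : Bool} (h : (mov T q a z).2 = -1) :
    late T q := by
  rcases q with _ | ⟨c, _ | l⟩ | _ | _ | _ | _ | _ | _ <;>
    rcases a with ⟨c', _ | l'⟩ | _ | _ <;>
      simp only [mov] at h <;> (try split_ifs at h) <;> simp [late] at h ⊢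

theorem run_append {α : Type} (M : DCM α) (u v : List α) :
    M.run (u ++ v) = v.foldl M.step (M.run u) := by
  unfold DCM.run
  rw [List.foldl_append]

theorem MM_rev : (MM T).OneReversal := by
  intro u v a b h
  have h1 : late T ((MM T).run u).1 := dec_late T h
  have h2 : ∀ (v : List (Sg (Option (Lab T)))) (x : St T × ℕ), late T x.1 →
      late T (v.foldl (MM T).step x).1 := by
    intro v
    induction v with
    | nil => intro x hx; exact hx
    | cons c v ih =>
      intro x hx
      exact ih _ (late_mov T hx c _).1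
  have h3 := h2 (a :: v) _ h1
  rw [← run_append] at h3
  exact (late_mov T h3 b _).2

/-- the amount counted with ratio `a` over `k` letters -/
def gg (a k : ℕ) : ℕ := a * (k / KK T) + min a (k % KK T)

theorem gg_zero (a : ℕ) : gg T a 0 = 0 := by simp [gg]

theorem gg_succ (a k : ℕ) (ha : a ≤ KK T) :
    gg T a (k + 1) = gg T a k + if k % KK T < a then 1 else 0 := by
  have hK : 0 < KK T := Nat.pos_of_ne_zero (NeZero.ne _)
  have h1 := Nat.div_add_mod k (KK T)
  have h2 : k % KK T < KK T := Nat.mod_lt _ hK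
  unfold gg
  by_cases h : k % KK T + 1 = KK T
  · have e : k + 1 = KK T * (k / KK T + 1) := by rw [mul_add]; omega
    have e1 : (k + 1) / KK T = k / KK T + 1 := by rw [e, Nat.mul_div_cancel_left _ hK]
    have e2 : (k + 1) % KK T = 0 := by rw [e, Nat.mul_mod_right]
    rw [e1, e2, mul_add]
    split_ifs <;> omega
  · have h3 : k % KK T + 1 < KK T := by omega
    have e : k + 1 = (k % KK T + 1) + KK T * (k / KK T) := by omega
    have e1 : (k + 1) / KK T = k / KK T := by
      rw [e, Nat.add_mul_div_left _ _ hK, Nat.div_eq_of_lt h3, zero_add]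
    have e2 : (k + 1) % KK T = k % KK T + 1 := by
      rw [e, Nat.add_mul_mod_self_left, Nat.mod_eq_of_lt h3]
    rw [e1, e2]
    split_ifs <;> omega

theorem gg_dvd (a k : ℕ) (h : KK T ∣ k) : gg T a k * KK T = a * k := by
  obtain ⟨x, rfl⟩ := h
  have hK : 0 < KK T := Nat.pos_of_ne_zero (NeZero.ne _)
  unfold gg
  rw [Nat.mul_div_cancel_left _ hK, Nat.mul_mod_right]
  simp
  ring

theorem val_cast (k : ℕ) : ((k : ZMod (KK T))).val = k % KK T := ZMod.val_natCast _ _

theorem cast_zero_iff (k : ℕ) : (k : ZMod (KK T)) = 0 ↔ KK T ∣ k := by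
  rw [ZMod.natCast_eq_zero_iff]

/-- invariants -/
def Inv (w : List (Sg (Option (Lab T)))) (x : St T × ℕ) : Prop :=
  match x.1 with
  | .st => w = [] ∧ x.2 = 0
  | .one c l => x.2 = 0 ∧ (w = [.H c l] ∨ (w = [.E] ∧ l = none))
  | .b1 c τ j => ∃ k : ℕ, w = .H c (some τ) :: ra k ∧ j = k ∧ x.2 = gg T (rr T τ) k
  | .mid c τ => ∃ k : ℕ, KK T ∣ k ∧ w = .H c (some τ) :: (ra k ++ [.E]) ∧
      x.2 = gg T (rr T τ) k
  | .b2 τ j => ∃ (c : Fin 3) (τ' : Lab T) (k k' : ℕ), KK T ∣ k ∧
      w = .H c (some τ) :: (ra k ++ .E :: .H (c + 1) (some τ') :: ra k') ∧ j = k' ∧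
      x.2 + gg T (ss T τ) k' = gg T (rr T τ) k
  | .ov j => ∃ (c : Fin 3) (τ τ' : Lab T) (k k' : ℕ), KK T ∣ k ∧
      w = .H c (some τ) :: (ra k ++ .E :: .H (c + 1) (some τ') :: ra k') ∧ j = k' ∧
      gg T (rr T τ) k < gg T (ss T τ) k'
  | .ac => w ∈ VV T
  | .dd => True

theorem ra_snoc (k : ℕ) : (ra k ++ [.A] : List (Sg (Option (Lab T)))) = ra (k + 1) := by
  simp [ra, List.replicate_succ']

theorem gg_mono (a : ℕ) (ha : a ≤ KK T) (k : ℕ) : gg T a k ≤ gg T a (k + 1) := by
  rw [gg_succ T a k ha]; omega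

theorem flat_pair {Λ : Type} (c c' : Fin 3) (l l' : Λ) (k k' : ℕ) :
    flat [(c, l, k), (c', l', k')] =
      Sg.H c l :: (ra k ++ .E :: .H c' l' :: (ra k' ++ [.E])) := by
  rw [flat_cons, flat_cons, flat_nil]

theorem Inv_step (w : List (Sg (Option (Lab T)))) (x : St T × ℕ) (a : Sg (Option (Lab T)))
    (h : Inv T w x) : Inv T (w ++ [a]) ((MM T).step x a) := by
  obtain ⟨q, n⟩ := x
  rcases q with _ | ⟨c, _ | τ⟩ | ⟨c, τ, j⟩ | ⟨c, τ⟩ | ⟨τ, j⟩ | j | _ | _ <;>
    rcases a with ⟨c', _ | l'⟩ | _ | _
  all_goals simp only [DCM.step, DCM.mv, MM, mov]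
  all_goals try exact trivial
  -- st
  · obtain ⟨h1, h2⟩ := h
    simp only at h1 h2
    subst h1 h2
    exact ⟨by simp, Or.inl rfl⟩
  · obtain ⟨h1, h2⟩ := h
    simp only at h1 h2
    subst h1 h2
    exact ⟨by simp, Or.inl rfl⟩
  · obtain ⟨h1, h2⟩ := h
    simp only at h1 h2
    subst h1 h2
    exact ⟨by simp, Or.inr ⟨rfl, rfl⟩⟩
  -- one
  · obtain ⟨h1, h2⟩ := h
    simp only at h1
    subst h1
    have h2 : w = [.H c (some τ)] := by
      rcases h2 with h2 | ⟨-, h2⟩
      · exact h2
      · cases h2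
    subst h2
    refine ⟨1, by simp [ra], by simp, ?_⟩
    have h3 := gg_succ T (rr T τ) 0 (by have := le_KK T τ; omega)
    rw [gg_zero] at h3
    simp only [Nat.zero_mod, zero_add] at h3
    rw [h3]
    by_cases h5 : 0 < rr T τ <;> simp [h5]
  · obtain ⟨h1, h2⟩ := h
    simp only at h1
    subst h1
    have h2 : w = [.H c (some τ)] := by
      rcases h2 with h2 | ⟨-, h2⟩
      · exact h2
      · cases h2
    subst h2
    exact ⟨0, dvd_zero _, by simp [ra], by simp [gg_zero]⟩
  -- b1
  · obtain ⟨k, rfl, rfl, h3⟩ := h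
    simp only at h3
    subst h3
    refine ⟨k + 1, ?_, by push_cast; rfl, ?_⟩
    · rw [List.cons_append, ra_snoc]
    · rw [gg_succ T _ k (by have := le_KK T τ; omega), val_cast]
      simp only
      split_ifs <;> simp <;> omega
  · obtain ⟨k, rfl, rfl, h3⟩ := h
    simp only at h3
    subst h3
    by_cases h : KK T ∣ k
    · rw [if_pos ((cast_zero_iff T k).2 h)]
      refine ⟨k, h, by simp, by simp⟩
    · rw [if_neg fun h' => h ((cast_zero_iff T k).1 h')]
      exact trivial
  -- mid
  · obtain ⟨k, h0, rfl, h3⟩ := h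
    simp only at h3
    subst h3
    by_cases h : c' = c + 1
    · rw [if_pos h]
      subst h
      refine ⟨c, l', k, 0, h0, by simp [ra], by simp, by simp [gg_zero]⟩
    · rw [if_neg h]
      exact trivial
  -- b2
  · obtain ⟨c, τ', k, k', h0, rfl, rfl, h3⟩ := h
    simp only at h3
    have hs := gg_succ T (ss T τ) k' (by have := le_KK T τ; omega)
    rw [val_cast]
    by_cases h : k' % KK T < ss T τ
    · rw [if_pos h] at hs ⊢
      rcases Nat.eq_zero_or_pos n with rfl | hn
      · rw [if_pos (beq_self_eq_true 0)]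
        refine ⟨c, τ, τ', k, k' + 1, h0, ?_, by push_cast; rfl, by omega⟩
        rw [← ra_snoc]; simp
      · rw [if_neg (by simp; omega)]
        refine ⟨c, τ', k, k' + 1, h0, ?_, by push_cast; rfl, ?_⟩
        · rw [← ra_snoc]; simp
        · simp only
          omega
    · rw [if_neg h] at hs ⊢
      refine ⟨c, τ', k, k' + 1, h0, ?_, by push_cast; rfl, ?_⟩
      · rw [← ra_snoc]; simp
      · simp only
        omega
  · obtain ⟨c, τ', k, k', h0, rfl, rfl, h3⟩ := h
    simp only at h3
    by_cases h : (k' : ZMod (KK T)) = 0 ∧ (n == 0) = false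
    · rw [if_pos h]
      have h4 := (cast_zero_iff T k').1 h.1
      refine ⟨c, τ, τ', k, k', h0, h4, ?_, by rw [flat_pair]; simp⟩
      intro h5
      have h6 := gg_dvd T (rr T τ) k h0
      have h7 := gg_dvd T (ss T τ) k' h4
      have h8 : n ≠ 0 := by simpa using h.2
      have hK : 0 < KK T := Nat.pos_of_ne_zero (NeZero.ne _)
      rw [← h6, ← h7] at h5
      have := Nat.eq_of_mul_eq_mul_right hK h5
      omega
    · rw [if_neg h]
      exact trivial
  -- ov
  · obtain ⟨c, τ, τ', k, k', h0, rfl, rfl, h3⟩ := h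
    refine ⟨c, τ, τ', k, k' + 1, h0, ?_, by push_cast; rfl, ?_⟩
    · rw [← ra_snoc]; simp
    · have := gg_mono T (ss T τ) (by have := le_KK T τ; omega) k'
      omega
  · obtain ⟨c, τ, τ', k, k', h0, rfl, rfl, h3⟩ := h
    by_cases h : (k' : ZMod (KK T)) = 0
    · rw [if_pos h]
      have h4 := (cast_zero_iff T k').1 h
      refine ⟨c, τ, τ', k, k', h0, h4, ?_, by rw [flat_pair]; simp⟩
      intro h5
      have h6 := gg_dvd T (rr T τ) k h0
      have h7 := gg_dvd T (ss T τ) k' h4
      have hK : 0 < KK T := Nat.pos_of_ne_zero (NeZero.ne _)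
      rw [← h6, ← h7] at h5
      have := Nat.eq_of_mul_eq_mul_right hK h5
      omega
    · rw [if_neg h]
      exact trivial

theorem Inv_run (w : List (Sg (Option (Lab T)))) : Inv T w ((MM T).run w) := by
  induction w using List.reverseRecOn with
  | nil => exact ⟨rfl, rfl⟩
  | append_singleton w a ih =>
    have : (MM T).run (w ++ [a]) = (MM T).step ((MM T).run w) a := by
      rw [run_append]; rfl
    rw [this]
    exact Inv_step T w _ a ih

theorem run_A1 (c : Fin 3) (τ : Lab T) (k : ℕ) :
    (ra k).foldl (MM T).step (.b1 c τ 0, 0) = (.b1 c τ k, gg T (rr T τ) k) := by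
  induction k with
  | zero => simp [ra, gg_zero]
  | succ k ih =>
    rw [← ra_snoc, List.foldl_append, ih]
    simp only [List.foldl_cons, List.foldl_nil, DCM.step, DCM.mv, MM, mov]
    rw [gg_succ T _ k (by have := le_KK T τ; omega), val_cast]
    split_ifs <;> simp

theorem run_ov (j : ZMod (KK T)) (n k : ℕ) :
    (ra k).foldl (MM T).step (.ov j, n) = (.ov (j + k), n) := by
  induction k with
  | zero => simp [ra]
  | succ k ih =>
    rw [← ra_snoc, List.foldl_append, ih]
    simp only [List.foldl_cons, List.foldl_nil, DCM.step, DCM.mv, MM, mov]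
    simp [add_assoc]

theorem run_A2 (τ : Lab T) (n k : ℕ) :
    (gg T (ss T τ) k ≤ n ∧
      (ra k).foldl (MM T).step (.b2 τ 0, n) = (.b2 τ k, n - gg T (ss T τ) k)) ∨
    (n < gg T (ss T τ) k ∧ (ra k).foldl (MM T).step (.b2 τ 0, n) = (.ov k, 0)) := by
  induction k with
  | zero => left; simp [ra, gg_zero]
  | succ k ih =>
    have hs := gg_succ T (ss T τ) k (by have := le_KK T τ; omega)
    rcases ih with ⟨h1, h2⟩ | ⟨h1, h2⟩
    · rw [← ra_snoc, List.foldl_append, h2]
      simp only [List.foldl_cons, List.foldl_nil, DCM.step, DCM.mv, MM, mov]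
      rw [val_cast]
      by_cases h : k % KK T < ss T τ
      · rw [if_pos h] at hs ⊢
        rcases Nat.eq_zero_or_pos (n - gg T (ss T τ) k) with h3 | h3
        · right
          rw [h3, if_pos (beq_self_eq_true 0)]
          refine ⟨by omega, by simp⟩
        · left
          rw [if_neg (by simp; omega)]
          refine ⟨by omega, ?_⟩
          simp only [Prod.mk.injEq]
          refine ⟨by push_cast; rfl, by omega⟩
      · rw [if_neg h] at hs ⊢
        left
        refine ⟨by omega, ?_⟩
        simp only [Prod.mk.injEq]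
        refine ⟨by push_cast; rfl, by omega⟩
    · right
      rw [← ra_snoc, List.foldl_append, h2]
      simp only [List.foldl_cons, List.foldl_nil, DCM.step, DCM.mv, MM, mov]
      refine ⟨by omega, by simp⟩

theorem one_run (c : Fin 3) (τ : Lab T) (k : ℕ) (v : List (Sg (Option (Lab T)))) :
    (ra k ++ Sg.E :: v).foldl (MM T).step (.one c (some τ), 0) =
      (ra k ++ Sg.E :: v).foldl (MM T).step (.b1 c τ 0, 0) := by
  cases k with
  | zero =>
    simp only [ra_zero, List.nil_append, List.foldl_cons]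
    congr 1
  | succ k =>
    simp only [ra_succ, List.cons_append, List.foldl_cons]
    congr 1
    simp [DCM.step, DCM.mv, MM, mov]

theorem MM_lang : (MM T).lang = L2 T := by
  ext w
  constructor
  · intro h
    have h1 := Inv_run T w
    change Ac T ((MM T).run w).1 at h
    generalize (MM T).run w = x at h h1
    obtain ⟨q, n⟩ := x
    rcases q with _ | ⟨c, l⟩ | ⟨c, τ, j⟩ | ⟨c, τ⟩ | ⟨τ, j⟩ | j | _ | _
    all_goals try exact h.elim
    · exact Or.inl h1.1
    · rcases h1.2 with h2 | ⟨h2, -⟩
      · exact Or.inr (Or.inl ⟨c, l, h2⟩)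
      · exact Or.inr (Or.inr (Or.inl h2))
    · exact Or.inr (Or.inr (Or.inr h1))
  · rintro (rfl | ⟨c, l, rfl⟩ | rfl | ⟨c, τ, τ', k, k', h1, h2, h3, rfl⟩)
    · exact trivial
    · exact trivial
    · exact trivial
    · change Ac T ((MM T).run _).1
      rw [flat_pair]
      have e1 : (MM T).run (.H c (some τ) :: (ra k ++ .E :: .H (c + 1) (some τ') :: (ra k' ++ [.E])))
          = (ra k ++ Sg.E :: Sg.H (c + 1) (some τ') :: (ra k' ++ [Sg.E])).foldl (MM T).step
            (.one c (some τ), 0) := rfl
      rw [e1, one_run, List.foldl_append, run_A1]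
      have e2 : (Sg.E :: Sg.H (c + 1) (some τ') :: (ra k' ++ [Sg.E])).foldl (MM T).step
          (.b1 c τ k, gg T (rr T τ) k) =
          (ra k' ++ [Sg.E]).foldl (MM T).step (.b2 τ 0, gg T (rr T τ) k) := by
        simp only [List.foldl_cons]
        congr 1
        simp only [DCM.step, DCM.mv, MM, mov]
        rw [if_pos ((cast_zero_iff T k).2 h1)]
        simp
      rw [e2, List.foldl_append]
      have h4 : gg T (rr T τ) k ≠ gg T (ss T τ) k' := by
        intro h5
        apply h3
        rw [← gg_dvd T _ _ h1, ← gg_dvd T _ _ h2, h5]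
      rcases run_A2 T τ (gg T (rr T τ) k) k' with ⟨h5, h6⟩ | ⟨h5, h6⟩
      · rw [h6]
        simp only [List.foldl_cons, List.foldl_nil, DCM.step, DCM.mv, MM, mov]
        rw [if_pos ⟨(cast_zero_iff T k').2 h2, by simp; omega⟩]
        exact trivial
      · rw [h6]
        simp only [List.foldl_cons, List.foldl_nil, DCM.step, DCM.mv, MM, mov]
        rw [if_pos ((cast_zero_iff T k').2 h2)]
        exact trivial

end

end Q222.SH
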