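import Pool.Agent.Q222.SH.Shuf

/-!
# Codes of nondeterministic finite automata, block automata
-/

set_option autoImplicit false

namespace Q222.SH

/-- runs of a nondeterministic automaton given by a finite list of transitions -/
def Rn {α : Type} (Δ : List (ℕ × α × ℕ)) : ℕ → List α → ℕ → Prop
  | p, [], q => p = q
  | p, a :: w, q => ∃ r, (p, a, r) ∈ Δ ∧ Rn Δ r w q

/-- a nondeterministic finite automaton: initial states, transitions, final states -/
abbrev NFAc (α : Type) : Type := List ℕ × List (ℕ × α × ℕ) × List ℕ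

/-- the accepted language -/
def lng {α : Type} (c : NFAc α) : Set (List α) :=
  {w | ∃ p ∈ c.1, ∃ q ∈ c.2.2, Rn c.2.1 p w q}

theorem Rn_congr {α : Type} {Δ Δ' : List (ℕ × α × ℕ)} {P : ℕ → Prop}
    (h1 : ∀ p a r, P p → ((p, a, r) ∈ Δ ↔ (p, a, r) ∈ Δ'))
    (h2 : ∀ p a r, P p → (p, a, r) ∈ Δ' → P r) (w : List α) :
    ∀ p q, P p → (Rn Δ p w q ↔ Rn Δ' p w q) := by
  induction w with
  | nil => intro p q _; exact Iff.rfl
  | cons a w ih =>
    intro p q hp
    constructor
    · rintro ⟨r, h3, h4⟩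
      have h5 := (h1 p a r hp).1 h3
      exact ⟨r, h5, (ih r q (h2 p a r hp h5)).1 h4⟩
    · rintro ⟨r, h3, h4⟩
      exact ⟨r, (h1 p a r hp).2 h3, (ih r q (h2 p a r hp h3)).2 h4⟩

theorem Rn_pres {α : Type} {Δ : List (ℕ × α × ℕ)} {P : ℕ → Prop}
    (h2 : ∀ p a r, P p → (p, a, r) ∈ Δ → P r) (w : List α) :
    ∀ p q, P p → Rn Δ p w q → P q := by
  induction w with
  | nil => rintro p q hp rfl; exact hp
  | cons a w ih =>
    rintro p q hp ⟨r, h3, h4⟩
    exact ih r q (h2 p a r hp h3) h4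

/-- union of two automata -/
def uni {α : Type} (c c' : NFAc α) : NFAc α :=
  (c.1 ++ c'.1, c.2.1 ++ c'.2.1, c.2.2 ++ c'.2.2)

/-- all states satisfy `P` -/
def Sat {α : Type} (P : ℕ → Prop) (c : NFAc α) : Prop :=
  (∀ p ∈ c.1, P p) ∧ (∀ p a q, (p, a, q) ∈ c.2.1 → P p ∧ P q) ∧ ∀ p ∈ c.2.2, P p

theorem lng_uni {α : Type} {c c' : NFAc α} {P : ℕ → Prop} (h : Sat P c)
    (h' : Sat (fun p => ¬ P p) c') : lng (uni c c') = lng c ∪ lng c' := by
  have k1 : ∀ (w : List α) p q, P p → (Rn (c.2.1 ++ c'.2.1) p w q ↔ Rn c.2.1 p w q) :=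
    Rn_congr (P := P) (fun p a r hp => by
      rw [List.mem_append]
      exact ⟨fun h3 => h3.resolve_right fun h4 => (h'.2.1 _ _ _ h4).1 hp, Or.inl⟩)
      (fun p a r _ h3 => (h.2.1 _ _ _ h3).2)
  have k2 : ∀ (w : List α) p q, ¬ P p → (Rn (c.2.1 ++ c'.2.1) p w q ↔ Rn c'.2.1 p w q) :=
    Rn_congr (P := fun p => ¬ P p) (fun p a r hp => by
      rw [List.mem_append]
      exact ⟨fun h3 => h3.resolve_left fun h4 => hp (h.2.1 _ _ _ h4).1, Or.inr⟩)
      (fun p a r _ h3 => (h'.2.1 _ _ _ h3).2)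
  have k3 := Rn_pres (Δ := c.2.1) (P := P) (fun p a r _ h3 => (h.2.1 _ _ _ h3).2)
  have k4 := Rn_pres (Δ := c'.2.1) (P := fun p => ¬ P p) (fun p a r _ h3 => (h'.2.1 _ _ _ h3).2)
  ext w
  constructor
  · rintro ⟨p, hp, q, hq, hr⟩
    simp only [uni, List.mem_append] at hp hq hr
    rcases hp with hp | hp
    · have h3 := (k1 w p q (h.1 p hp)).1 hr
      rcases hq with hq | hq
      · exact Or.inl ⟨p, hp, q, hq, h3⟩
      · exact (h'.2.2 q hq (k3 w p q (h.1 p hp) h3)).elim
    · have h3 := (k2 w p q (h'.1 p hp)).1 hr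
      rcases hq with hq | hq
      · exact (k4 w p q (h'.1 p hp) h3 (h.2.2 q hq)).elim
      · exact Or.inr ⟨p, hp, q, hq, h3⟩
  · rintro (⟨p, hp, q, hq, hr⟩ | ⟨p, hp, q, hq, hr⟩)
    · exact ⟨p, List.mem_append.2 (Or.inl hp), q, List.mem_append.2 (Or.inl hq),
        (k1 w p q (h.1 p hp)).2 hr⟩
    · exact ⟨p, List.mem_append.2 (Or.inr hp), q, List.mem_append.2 (Or.inr hq),
        (k2 w p q (h'.1 p hp)).2 hr⟩

/-! ### Counting weights modulo three -/

/-- product with the counter modulo three, states moved by `B` -/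
def pr3 {α : Type} (wt : α → ℕ) (B : ℕ) (Δ : List (ℕ × α × ℕ)) : List (ℕ × α × ℕ) :=
  Δ.flatMap fun t => [0, 1, 2].map fun v =>
    (B + (3 * t.1 + v), t.2.1, B + (3 * t.2.2 + (v + wt t.2.1) % 3))

theorem mem_pr3 {α : Type} {wt : α → ℕ} {B : ℕ} {Δ : List (ℕ × α × ℕ)} {x : ℕ × α × ℕ} :
    x ∈ pr3 wt B Δ ↔ ∃ p a q v, (p, a, q) ∈ Δ ∧ v < 3 ∧
      x = (B + (3 * p + v), a, B + (3 * q + (v + wt a) % 3)) := by
  simp only [pr3, List.mem_flatMap, List.mem_map, List.mem_cons, List.not_mem_nil, or_false]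
  constructor
  · rintro ⟨⟨p, a, q⟩, h1, v, h2, rfl⟩
    exact ⟨p, a, q, v, h1, by omega, rfl⟩
  · rintro ⟨p, a, q, v, h1, h2, rfl⟩
    exact ⟨(p, a, q), h1, v, by omega, rfl⟩

theorem Rn_pr3 {α : Type} {wt : α → ℕ} {B : ℕ} {Δ : List (ℕ × α × ℕ)} (w : List α) :
    ∀ p v x, v < 3 → (Rn (pr3 wt B Δ) (B + (3 * p + v)) w x ↔
      ∃ q, Rn Δ p w q ∧ x = B + (3 * q + (v + (w.map wt).sum) % 3)) := by
  induction w with
  | nil =>
    intro p v x hv
    simp only [Rn, List.map_nil, List.sum_nil, add_zero]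
    constructor
    · rintro rfl
      exact ⟨p, rfl, by rw [Nat.mod_eq_of_lt hv]⟩
    · rintro ⟨q, rfl, rfl⟩
      rw [Nat.mod_eq_of_lt hv]
  | cons a w ih =>
    intro p v x hv
    simp only [Rn]
    constructor
    · rintro ⟨r, h1, h2⟩
      obtain ⟨p', a', q', v', h3, h4, h5⟩ := mem_pr3.1 h1
      simp only [Prod.mk.injEq] at h5
      obtain ⟨h5, rfl, rfl⟩ := h5
      have h6 : p = p' := by omega
      have h7 : v = v' := by omega
      subst h6 h7
      obtain ⟨q, h8, rfl⟩ := (ih q' ((v + wt a) % 3) x (Nat.mod_lt _ (by omega))).1 h2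
      refine ⟨q, ⟨q', h3, h8⟩, ?_⟩
      rw [List.map_cons, List.sum_cons, Nat.mod_add_mod, add_assoc]
    · rintro ⟨q, ⟨r, h1, h2⟩, rfl⟩
      refine ⟨B + (3 * r + (v + wt a) % 3), mem_pr3.2 ⟨p, a, r, v, h1, hv, rfl⟩, ?_⟩
      refine (ih r ((v + wt a) % 3) _ (Nat.mod_lt _ (by omega))).2 ⟨q, h2, ?_⟩
      rw [List.map_cons, List.sum_cons, Nat.mod_add_mod, add_assoc]

/-! ### The chain -/

/-- transitions of the chain automaton -/
def chn {α : Type} (ls : List α) (A E : α) (m : ℕ) : List (ℕ × α × ℕ) :=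
  ls.map (fun x => (0, x, 1)) ++ ((List.range (m + 1)).map (fun j => (j + 1, A, j + 2)) ++
    ([(m + 2, A, m + 2), (m + 2, E, m + 3)] ++ ((List.range m).map (fun j => (j + 1, E, m + 3)) ++
      ls.map (fun x => (m + 3, x, m + 3)))))

theorem mem_chn {α : Type} {ls : List α} {A E : α} {m : ℕ} {x : ℕ × α × ℕ} :
    x ∈ chn ls A E m ↔ (∃ a ∈ ls, x = (0, a, 1)) ∨ (∃ j < m + 1, x = (j + 1, A, j + 2)) ∨
      x = (m + 2, A, m + 2) ∨ x = (m + 2, E, m + 3) ∨ (∃ j < m, x = (j + 1, E, m + 3)) ∨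
      ∃ a ∈ ls, x = (m + 3, a, m + 3) := by
  simp only [chn, List.mem_append, List.mem_map, List.mem_range, List.mem_cons, List.not_mem_nil,
    or_false, eq_comm (b := x), or_assoc]

/-- position after `i` letters `A` -/
def pos (m i : ℕ) : ℕ := min i (m + 1) + 1

theorem chn_end {α : Type} {ls : List α} {A E : α} {m : ℕ} (hls : ∀ a, a ∈ ls) (y : List α) :
    ∀ q, Rn (chn ls A E m) (m + 3) y q ↔ q = m + 3 := by
  induction y with
  | nil => intro q; simp only [Rn]; exact eq_comm
  | cons a y ih =>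
    intro q
    simp only [Rn]
    constructor
    · rintro ⟨r, h1, h2⟩
      have : r = m + 3 := by
        rcases mem_chn.1 h1 with ⟨b, -, h⟩ | ⟨j, hj, h⟩ | h | h | ⟨j, hj, h⟩ | ⟨b, -, h⟩ <;>
          simp only [Prod.mk.injEq] at h <;> omega
      subst this
      exact (ih q).1 h2
    · rintro rfl
      exact ⟨m + 3, mem_chn.2 (by right; right; right; right; right; exact ⟨a, hls a, rfl⟩),
        (ih _).2 rfl⟩

theorem chn_fwd {α : Type} {ls : List α} {A E : α} {m : ℕ} (hls : ∀ a, a ∈ ls) (y : List α)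
    (k : ℕ) : ∀ i, i + k ≠ m →
      Rn (chn ls A E m) (pos m i) (List.replicate k A ++ E :: y) (m + 3) := by
  induction k with
  | zero =>
    intro i hi
    refine ⟨m + 3, mem_chn.2 ?_, (chn_end hls y _).2 rfl⟩
    rcases Nat.lt_or_ge i (m + 1) with h | h
    · right; right; right; right; left
      refine ⟨i, by omega, ?_⟩
      simp only [pos, Prod.mk.injEq, and_true]
      omega
    · right; right; right; left
      simp only [pos, Prod.mk.injEq, and_true]
      omega
  | succ k ih =>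
    intro i hi
    refine ⟨pos m (i + 1), mem_chn.2 ?_, ih (i + 1) (by omega)⟩
    rcases Nat.lt_or_ge i (m + 1) with h | h
    · right; left
      refine ⟨i, by omega, ?_⟩
      simp only [pos, Prod.mk.injEq, true_and]
      omega
    · right; right; left
      simp only [pos, Prod.mk.injEq, true_and]
      omega

theorem chn_bwd {α : Type} {ls : List α} {A E : α} {m : ℕ} (w : List α) :
    ∀ i, Rn (chn ls A E m) (pos m i) w (m + 3) →
      ∃ k y, w = List.replicate k A ++ E :: y ∧ i + k ≠ m := by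
  induction w with
  | nil =>
    intro i h
    simp only [Rn, pos] at h
    omega
  | cons a w ih =>
    rintro i ⟨r, h1, h2⟩
    have hp : pos m i = min i (m + 1) + 1 := rfl
    rw [hp] at h1
    rcases mem_chn.1 h1 with ⟨b, -, h⟩ | ⟨j, hj, h⟩ | h | h | ⟨j, hj, h⟩ | ⟨b, -, h⟩ <;>
      simp only [Prod.mk.injEq] at h
    · omega
    · obtain ⟨h3, rfl, h4⟩ := h
      have h5 : r = pos m (i + 1) := by unfold pos; omega
      subst h5
      obtain ⟨k, y, rfl, h6⟩ := ih _ h2
      exact ⟨k + 1, y, by simp [List.replicate_succ], by omega⟩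
    · obtain ⟨h3, rfl, h4⟩ := h
      have h5 : r = pos m (i + 1) := by unfold pos; omega
      subst h5
      obtain ⟨k, y, rfl, h6⟩ := ih _ h2
      exact ⟨k + 1, y, by simp [List.replicate_succ], by omega⟩
    · obtain ⟨h3, rfl, h4⟩ := h
      exact ⟨0, w, by simp, by omega⟩
    · obtain ⟨h3, rfl, h4⟩ := h
      exact ⟨0, w, by simp, by omega⟩
    · omega

theorem chn_iff {α : Type} {ls : List α} {A E : α} {m : ℕ} (hls : ∀ a, a ∈ ls) (w : List α) :
    Rn (chn ls A E m) 0 w (m + 3) ↔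
      ∃ x k y, k ≠ m ∧ w = x :: (List.replicate k A ++ E :: y) := by
  constructor
  · intro h
    cases w with
    | nil => simp only [Rn] at h; omega
    | cons a w =>
      obtain ⟨r, h1, h2⟩ := h
      have : r = pos m 0 := by
        rcases mem_chn.1 h1 with ⟨b, -, h⟩ | ⟨j, hj, h⟩ | h | h | ⟨j, hj, h⟩ | ⟨b, -, h⟩ <;>
          simp only [Prod.mk.injEq] at h <;> simp only [pos] <;> omega
      subst this
      obtain ⟨k, y, rfl, h3⟩ := chn_bwd w 0 h2
      exact ⟨a, k, y, by omega, rfl⟩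
  · rintro ⟨x, k, y, hk, rfl⟩
    have h := chn_fwd (A := A) (E := E) (m := m) hls y k 0 (by omega)
    exact ⟨1, mem_chn.2 (Or.inl ⟨x, hls x, rfl⟩), by simpa [pos] using h⟩

/-! ### Automata from deterministic automata -/

/-- code of a deterministic automaton -/
noncomputable def cdfa {α β σ : Type} [Fintype α] [Fintype σ] (f : α → β) (M : DFA β σ) :
    NFAc α := by
  classical
  exact ([(Fintype.equivFin σ M.start : ℕ)],
    (Finset.univ : Finset σ).toList.flatMap fun p => (Finset.univ : Finset α).toList.map fun a =>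
      ((Fintype.equivFin σ p : ℕ), a, (Fintype.equivFin σ (M.step p (f a)) : ℕ)),
    ((Finset.univ : Finset σ).filter fun p => p ∈ M.accept).toList.map fun p =>
      (Fintype.equivFin σ p : ℕ))

theorem Rn_cdfa {α β σ : Type} [Fintype α] [Fintype σ] (f : α → β) (M : DFA β σ) (w : List α) :
    ∀ p x, Rn (cdfa f M).2.1 (Fintype.equivFin σ p : ℕ) w x ↔
      x = (Fintype.equivFin σ (M.evalFrom p (w.map f)) : ℕ) := by
  induction w with
  | nil => intro p x; simp only [Rn, List.map_nil, DFA.evalFrom_nil]; exact eq_comm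
  | cons a w ih =>
    intro p x
    simp only [Rn, List.map_cons]
    have h0 : M.evalFrom p (f a :: w.map f) = M.evalFrom (M.step p (f a)) (w.map f) := rfl
    rw [h0]
    constructor
    · rintro ⟨r, h1, h2⟩
      simp only [cdfa, List.mem_flatMap, List.mem_map, Finset.mem_toList, Finset.mem_univ,
        true_and, Prod.mk.injEq] at h1
      obtain ⟨p', a', h3, rfl, rfl⟩ := h1
      have h4 : p' = p := (Fintype.equivFin σ).injective (Fin.ext h3)
      subst h4
      exact (ih _ _).1 h2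
    · rintro rfl
      refine ⟨_, ?_, (ih _ _).2 rfl⟩
      simp only [cdfa, List.mem_flatMap, List.mem_map, Finset.mem_toList, Finset.mem_univ,
        true_and, Prod.mk.injEq]
      exact ⟨p, a, rfl, rfl, rfl⟩

theorem lng_cdfa {α β σ : Type} [Fintype α] [Fintype σ] (f : α → β) (M : DFA β σ) :
    lng (cdfa f M) = {w | w.map f ∈ M.accepts} := by
  ext w
  constructor
  · rintro ⟨p, hp, q, hq, hr⟩
    simp only [cdfa, List.mem_cons, List.not_mem_nil, or_false] at hp
    subst hp
    rw [Rn_cdfa] at hr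
    subst hr
    simp only [cdfa, List.mem_map, Finset.mem_toList, Finset.mem_filter, Finset.mem_univ,
      true_and] at hq
    obtain ⟨q, h1, h2⟩ := hq
    have h3 : q = _ := (Fintype.equivFin σ).injective (Fin.ext h2)
    subst h3
    exact h1
  · intro h
    refine ⟨(Fintype.equivFin σ M.start : ℕ), by simp [cdfa], _, ?_, (Rn_cdfa f M w _ _).2 rfl⟩
    simp only [cdfa, List.mem_map, Finset.mem_toList, Finset.mem_filter, Finset.mem_univ, true_and]
    exact ⟨_, h, rfl⟩

theorem Sat_cdfa {α β σ : Type} [Fintype α] [Fintype σ] (f : α → β) (M : DFA β σ) :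
    Sat (fun p => p < Fintype.card σ) (cdfa f M) := by
  refine ⟨?_, ?_, ?_⟩
  · intro p hp
    simp only [cdfa, List.mem_cons, List.not_mem_nil, or_false] at hp
    subst hp
    exact Fin.is_lt _
  · intro p a q h
    simp only [cdfa, List.mem_flatMap, List.mem_map, Finset.mem_toList, Finset.mem_univ,
      true_and, Prod.mk.injEq] at h
    obtain ⟨p', a', rfl, rfl, rfl⟩ := h
    exact ⟨Fin.is_lt _, Fin.is_lt _⟩
  · intro p hp
    simp only [cdfa, List.mem_map, Finset.mem_toList, Finset.mem_filter, Finset.mem_univ,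
      true_and] at hp
    obtain ⟨q, h1, rfl⟩ := hp
    exact Fin.is_lt _

/-! ### Block automata -/

section

variable {Λ S : Type} {M : ℕ}

/-- block lists accepted from state `s` -/
def okA (bs : S → Fin 3 → Λ → ZMod M → Option S) (F : Set S) : S → List (Bl Λ) → Prop
  | s, [] => s ∈ F
  | s, b :: l => ∃ s', bs s b.1 b.2.1 b.2.2 = some s' ∧ okA bs F s' l

/-- the letter automaton -/
def bst (bs : S → Fin 3 → Λ → ZMod M → Option S) :
    Option (S ⊕ (S × Fin 3 × Λ × ZMod M)) → Sg Λ → Option (S ⊕ (S × Fin 3 × Λ × ZMod M))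
  | some (.inl s), .H c l => some (.inr (s, c, l, 0))
  | some (.inr (s, c, l, k)), .A => some (.inr (s, c, l, k + 1))
  | some (.inr (s, c, l, k)), .E => (bs s c l k).map .inl
  | _, _ => none

/-- accepting states -/
def bac (F : Set S) : Set (Option (S ⊕ (S × Fin 3 × Λ × ZMod M))) :=
  {x | ∃ s ∈ F, x = some (.inl s)}

theorem bst_none (bs : S → Fin 3 → Λ → ZMod M → Option S) (w : List (Sg Λ)) :
    w.foldl (bst bs) none = none := by
  induction w with
  | nil => rfl
  | cons a w ih => exact ih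

theorem bst_A (bs : S → Fin 3 → Λ → ZMod M → Option S) (s : S) (c : Fin 3) (l : Λ) (k : ℕ) :
    ∀ j : ZMod M, (ra k).foldl (bst bs) (some (.inr (s, c, l, j))) =
      some (.inr (s, c, l, j + k)) := by
  induction k with
  | zero => intro j; simp [ra]
  | succ k ih =>
    intro j
    rw [ra_succ, List.foldl_cons]
    have : bst bs (some (.inr (s, c, l, j))) .A = some (.inr (s, c, l, j + 1)) := rfl
    rw [this, ih]
    push_cast
    congr 5
    ring

theorem bst_fwd (bs : S → Fin 3 → Λ → ZMod M → Option S) (F : Set S) (b : List (Bl Λ)) :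
    ∀ s, okA bs F s b → (flat b).foldl (bst bs) (some (.inl s)) ∈ bac (Λ := Λ) (M := M) F := by
  induction b with
  | nil => intro s h; exact ⟨s, h, rfl⟩
  | cons x b ih =>
    obtain ⟨c, l, k⟩ := x
    rintro s ⟨s', h1, h2⟩
    rw [flat_cons, List.foldl_cons, List.foldl_append, List.foldl_cons]
    have e1 : bst bs (some (.inl s)) (.H c l) = some (.inr (s, c, l, 0)) := rfl
    simp only
    rw [e1, bst_A, zero_add]
    have e2 : bst bs (some (.inr (s, c, l, (k : ZMod M)))) .E = (bs s c l k).map .inl := rfl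
    rw [e2]
    simp only at h1
    rw [h1]
    exact ih s' h2

theorem bst_bwd (bs : S → Fin 3 → Λ → ZMod M → Option S) (F : Set S) (w : List (Sg Λ)) :
    (∀ s, w.foldl (bst bs) (some (.inl s)) ∈ bac (Λ := Λ) (M := M) F →
      ∃ b, w = flat b ∧ okA bs F s b) ∧
    (∀ s c l (k : ℕ), w.foldl (bst bs) (some (.inr (s, c, l, (k : ZMod M)))) ∈
        bac (Λ := Λ) (M := M) F →
      ∃ (j : ℕ) (b : List (Bl Λ)) (s' : S), w = ra j ++ .E :: flat b ∧
        bs s c l ((k + j : ℕ) : ZMod M) = some s' ∧ okA bs F s' b) := by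
  induction w with
  | nil =>
    constructor
    · rintro s ⟨s', h1, h2⟩
      simp only [List.foldl_nil, Option.some.injEq, Sum.inl.injEq] at h2
      subst h2
      exact ⟨[], rfl, h1⟩
    · rintro s c l k ⟨s', h1, h2⟩
      simp at h2
  | cons a w ih =>
    have hn : ∀ x : Prop, w.foldl (bst bs) none ∈ bac (Λ := Λ) (M := M) F → x := by
      intro x h
      rw [bst_none] at h
      obtain ⟨s, -, h⟩ := h
      cases h
    constructor
    · intro s h
      cases a with
      | H c l =>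
        have h' : w.foldl (bst bs) (some (.inr (s, c, l, ((0 : ℕ) : ZMod M)))) ∈
            bac (Λ := Λ) (M := M) F := by
          rw [Nat.cast_zero]
          exact h
        obtain ⟨j, b, s', rfl, h2, h3⟩ := ih.2 s c l 0 h'
        rw [zero_add] at h2
        exact ⟨(c, l, j) :: b, by rw [flat_cons], s', h2, h3⟩
      | A => exact hn _ h
      | E => exact hn _ h
    · intro s c l k h
      cases a with
      | H c l => exact hn _ h
      | A =>
        have h' : w.foldl (bst bs) (some (.inr (s, c, l, ((k + 1 : ℕ) : ZMod M)))) ∈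
            bac (Λ := Λ) (M := M) F := by
          push_cast
          exact h
        obtain ⟨j, b, s', rfl, h2, h3⟩ := ih.2 s c l (k + 1) h'
        refine ⟨j + 1, b, s', ?_, ?_, h3⟩
        · rw [ra_succ]; rfl
        · rw [← h2]; congr 2; ring
      | E =>
        rw [List.foldl_cons] at h
        have e2 : bst bs (some (.inr (s, c, l, (k : ZMod M)))) .E = (bs s c l k).map .inl := rfl
        rw [e2] at h
        cases h3 : bs s c l k with
        | none =>
          rw [h3] at h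
          exact hn _ h
        | some s' =>
          rw [h3] at h
          obtain ⟨b, rfl, h4⟩ := ih.1 s' h
          exact ⟨0, b, s', by simp [ra], by simpa using h3, h4⟩

theorem reg_blocks [NeZero M] [Finite S] [Finite Λ] (bs : S → Fin 3 → Λ → ZMod M → Option S)
    (F : Set S) (s : S) :
    Language.IsRegular ({w | ∃ b, w = flat b ∧ okA bs F s b} : Language (Sg Λ)) := by
  have : Finite (Option (S ⊕ (S × Fin 3 × Λ × ZMod M))) := inferInstance
  have := Fintype.ofFinite (Option (S ⊕ (S × Fin 3 × Λ × ZMod M)))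
  refine ⟨_, this, ⟨bst bs, some (.inl s), bac F⟩, ?_⟩
  ext w
  constructor
  · intro h
    exact (bst_bwd bs F w).1 s h
  · rintro ⟨b, rfl, h⟩
    exact bst_fwd bs F b s h

end

end Q222.SH
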