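import Pool.Agent.Q222.SH.Mach
import Pool.Agent.Q222.SH.Reg

/-!
# The reduction
-/

set_option autoImplicit false

namespace Q222.SH

open Pool.Agent.H109R3.CF

section

variable (T : List Tr) (p0 : ℕ)

/-- all labels -/
abbrev La : Type := Option (Lab T)

/-- the control state after the last label -/
def out (l : Option (La T)) : Option ℕ :=
  match l with
  | none => some p0
  | some none => none
  | some (some τ) => τ.1.2.2.2.2.2

/-- the label fits the control state -/
def cmp (o : Option ℕ) (l : La T) : Prop :=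
  match o, l with
  | some p, some τ => τ.1.1 = p
  | none, none => True
  | _, _ => False

/-- the number in the block fits the label -/
def gd (l : La T) (k : ℕ) : Prop :=
  match l with
  | none => True
  | some τ => k % (KK T * ss T τ) = KK T * τ.1.2.2.1

/-- well-formed block lists -/
def okW : Fin 3 → Option (La T) → List (Bl (La T)) → Prop
  | _, l, [] => l = some none
  | d, l, b :: bs => b.1 = d + 1 ∧ cmp T (out T p0 l) b.2.1 ∧ gd T b.2.1 b.2.2 ∧
      okW b.1 (some b.2.1) bs

/-- all neighbouring blocks are related -/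
def AllV : List (Bl (La T)) → Prop
  | [] => True
  | [_] => True
  | a :: b :: l => (∀ τ τ' : Lab T, a.2.1 = some τ → b.2.1 = some τ' →
      ss T τ * b.2.2 = rr T τ * a.2.2) ∧ AllV (b :: l)

theorem AllV_mid {X Z : List (Bl (La T))} {a b : Bl (La T)} (h : AllV T (X ++ a :: b :: Z))
    (τ τ' : Lab T) (h1 : a.2.1 = some τ) (h2 : b.2.1 = some τ') :
    ss T τ * b.2.2 = rr T τ * a.2.2 := by
  induction X with
  | nil => exact h.1 τ τ' h1 h2
  | cons x X ih =>
    apply ih
    cases X with
    | nil => exact h.2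
    | cons y X => exact h.2

theorem not_AllV {l : List (Bl (La T))} (h : ¬ AllV T l) :
    ∃ (X Z : List (Bl (La T))) (a b : Bl (La T)) (τ τ' : Lab T), l = X ++ a :: b :: Z ∧
      a.2.1 = some τ ∧ b.2.1 = some τ' ∧ ss T τ * b.2.2 ≠ rr T τ * a.2.2 := by
  induction l with
  | nil => exact (h trivial).elim
  | cons a l ih =>
    cases l with
    | nil => exact (h trivial).elim
    | cons b l =>
      by_cases h1 : AllV T (b :: l)
      · have h2 : ¬ ∀ τ τ' : Lab T, a.2.1 = some τ → b.2.1 = some τ' →
            ss T τ * b.2.2 = rr T τ * a.2.2 := fun h2 => h ⟨h2, h1⟩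
        push Not at h2
        obtain ⟨τ, τ', h3, h4, h5⟩ := h2
        exact ⟨[], l, a, b, τ, τ', rfl, h3, h4, h5⟩
      · obtain ⟨X, Z, a', b', τ, τ', h2, h3⟩ := ih h1
        exact ⟨a :: X, Z, a', b', τ, τ', by rw [h2]; rfl, h3⟩

theorem okW_inc {d : Fin 3} {l : Option (La T)} {b : List (Bl (La T))} (h : okW T p0 d l b) :
    inc d b := by
  induction b generalizing d l with
  | nil => trivial
  | cons x b ih => exact ⟨h.1, ih h.2.2.2⟩

theorem okW_gd {d : Fin 3} {l : Option (La T)} {b : List (Bl (La T))} (h : okW T p0 d l b) :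
    ∀ x ∈ b, gd T x.2.1 x.2.2 := by
  induction b generalizing d l with
  | nil => intro x hx; simp at hx
  | cons y b ih =>
    intro x hx
    rcases List.mem_cons.1 hx with rfl | hx
    · exact h.2.2.1
    · exact ih h.2.2.2 x hx

theorem gd_dvd {τ : Lab T} {k : ℕ} (h : gd T (some τ) k) : KK T ∣ k := by
  simp only [gd] at h
  have h1 := Nat.div_add_mod k (KK T * ss T τ)
  rw [h] at h1
  rw [← h1]
  exact dvd_add (dvd_mul_of_dvd_left (dvd_mul_right _ _) _) (dvd_mul_right _ _)

variable {T p0} (hT : ∀ τ ∈ T, Prp τ)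

include hT

theorem halts_of_ok (l : List (Bl (La T))) : ∀ (d : Fin 3) (la : Option (La T)) (x : Bl (La T)),
    okW T p0 d la (x :: l) → AllV T (x :: l) → HaltsT T (out T p0 la) (x.2.2 / KK T) := by
  have hK : 0 < KK T := Nat.pos_of_ne_zero (NeZero.ne _)
  induction l with
  | nil =>
    intro d la x h _
    obtain ⟨-, h1, -, h2⟩ := h
    simp only [okW, Option.some.injEq] at h2
    rw [h2] at h1
    cases h3 : out T p0 la with
    | none => exact .stop _
    | some p => rw [h3] at h1; exact h1.elim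
  | cons y l ih =>
    intro d la x h hv
    obtain ⟨-, h1, h2, h3⟩ := h
    have ih' := ih _ _ _ h3 hv.2
    obtain ⟨c, lb, k⟩ := x
    simp only at h1 h2 h3 ih' ⊢
    cases lb with
    | none =>
      cases h3 : out T p0 la with
      | none => exact .stop _
      | some p => rw [h3] at h1; exact h1.elim
    | some τ =>
      cases h4 : out T p0 la with
      | none => rw [h4] at h1; exact h1.elim
      | some p =>
        rw [h4] at h1
        have h1 : τ.1.1 = p := h1
        obtain ⟨hp1, hp2⟩ := hT τ.1 τ.2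
        have hs : 0 < τ.1.2.1 := by omega
        obtain ⟨u, rfl⟩ := gd_dvd T h2
        have h5 : u % τ.1.2.1 = τ.1.2.2.1 := by
          have h2' : (KK T * u) % (KK T * ss T τ) = KK T * τ.1.2.2.1 := h2
          rw [Nat.mul_mod_mul_left] at h2'
          exact Nat.eq_of_mul_eq_mul_left hK h2'
        rw [Nat.mul_div_cancel_left _ hK]
        have h6 := Nat.div_add_mod u τ.1.2.1
        rw [h5] at h6
        rw [← h6]
        have hmem : (p, τ.1.2.1, τ.1.2.2.1, τ.1.2.2.2.1, τ.1.2.2.2.2.1, τ.1.2.2.2.2.2) ∈ T := by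
          rw [← h1]; exact τ.2
        refine .step p _ _ _ _ _ hmem (u / τ.1.2.1) ?_
        obtain ⟨-, h7, h8, -⟩ := h3
        obtain ⟨c', lb', k'⟩ := y
        simp only at h7 h8 ih'
        cases lb' with
        | none =>
          have h9 : τ.1.2.2.2.2.2 = none := by
            cases h10 : τ.1.2.2.2.2.2 with
            | none => rfl
            | some p' =>
              simp only [out] at h7
              rw [h10] at h7
              exact h7.elim
          rw [h9]
          exact .stop _
        | some τ' =>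
          obtain ⟨u', rfl⟩ := gd_dvd T h8
          rw [Nat.mul_div_cancel_left _ hK] at ih'
          have h9 := hv.1 τ τ' rfl rfl
          simp only [ss, rr] at h9
          have h10 : u' = τ.1.2.2.2.1 * (u / τ.1.2.1) + τ.1.2.2.2.2.1 := by
            have h11 : τ.1.2.1 * u' = τ.1.2.2.2.1 * u := by
              apply Nat.eq_of_mul_eq_mul_left hK
              calc KK T * (τ.1.2.1 * u') = τ.1.2.1 * (KK T * u') := by ring
                _ = _ := h9
                _ = KK T * (τ.1.2.2.2.1 * u) := by ring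
            apply Nat.eq_of_mul_eq_mul_left hs
            rw [h11]
            conv_lhs => rw [← h6]
            rw [mul_add, mul_add, ← hp2]
            ring
          rw [← h10]
          exact ih'

/-- idle blocks -/
def idl : Fin 3 → ℕ → List (Bl (La T))
  | _, 0 => []
  | d, n + 1 => (d + 1, none, 0) :: idl (d + 1) n

omit hT in
theorem idl_ok (n : ℕ) : ∀ d : Fin 3, okW T p0 d (some none) (idl d n) ∧
    (idl (T := T) d n).length = n := by
  induction n with
  | zero => intro d; exact ⟨rfl, rfl⟩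
  | succ n ih =>
    intro d
    obtain ⟨h1, h2⟩ := ih (d + 1)
    exact ⟨⟨rfl, trivial, trivial, h1⟩, by simp only [idl, List.length_cons, h2]⟩

omit hT in
theorem AllV_idle (n : ℕ) : ∀ (d : Fin 3) (x : Bl (La T)), x.2.1 = none →
    AllV T (x :: idl d n) := by
  induction n with
  | zero => intro d x _; exact trivial
  | succ n ih =>
    intro d x hx
    refine ⟨?_, ih (d + 1) _ rfl⟩
    intro τ τ' h1 h2
    cases h2

theorem ok_of_halts {o : Option ℕ} {x : ℕ} (h : HaltsT T o x) : ∀ (d : Fin 3)
    (la : Option (La T)) (n : ℕ), out T p0 la = o →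
    ∃ (c : Fin 3) (l : La T) (b : List (Bl (La T))), okW T p0 d la ((c, l, KK T * x) :: b) ∧
      AllV T ((c, l, KK T * x) :: b) ∧ (b.length + 1) % 3 = n % 3 := by
  induction h with
  | stop x =>
    intro d la n ho
    refine ⟨d + 1, none, idl (d + 1) ((n + 2) % 3), ⟨rfl, ?_, trivial, (idl_ok _ _).1⟩,
      AllV_idle _ _ _ rfl, ?_⟩
    · rw [ho]; exact trivial
    · rw [(idl_ok (p0 := p0) _ _).2]; omega
  | step p s s0 r r0 o hτ t _ ih =>
    intro d la n ho
    obtain ⟨c, l, b, h1, h2, h3⟩ := ih (d + 1) (some (some ⟨_, hτ⟩)) (n + 2) rfl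
    obtain ⟨hp1, hp2⟩ := hT _ hτ
    simp only at hp1 hp2
    refine ⟨d + 1, some ⟨_, hτ⟩, (c, l, KK T * (r * t + r0)) :: b, ⟨rfl, ?_, ?_, h1⟩, ⟨?_, h2⟩, ?_⟩
    · rw [ho]; exact rfl
    · change (KK T * (s * t + s0)) % (KK T * s) = KK T * s0
      rw [Nat.mul_mod_mul_left, Nat.mul_add_mod, Nat.mod_eq_of_lt hp1]
    · intro τ τ' h4 _
      obtain rfl := (Option.some.inj h4)
      change s * (KK T * (r * t + r0)) = r * (KK T * (s * t + s0))
      calc s * (KK T * (r * t + r0)) = KK T * (s * r * t + r0 * s) := by ring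
        _ = _ := by rw [hp2]; ring
    · simp only [List.length_cons]; omega

omit hT

/-! ### Weights -/

/-- weights of letters -/
def wtf {Λ : Type} : Sg Λ → ℕ
  | .H _ _ => 1
  | .A => 0
  | .E => 1

/-- weight of a word -/
def wt {Λ : Type} (w : List (Sg Λ)) : ℕ := (w.map wtf).sum

theorem wt_append {Λ : Type} (u v : List (Sg Λ)) : wt (u ++ v) = wt u + wt v := by
  simp [wt]

theorem wt_cons {Λ : Type} (a : Sg Λ) (v : List (Sg Λ)) : wt (a :: v) = wtf a + wt v := by
  simp [wt]

theorem wt_ra {Λ : Type} (k : ℕ) : wt (ra k : List (Sg Λ)) = 0 := by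
  simp [wt, ra, wtf]

theorem wt_flat {Λ : Type} (b : List (Bl Λ)) : wt (flat b) = 2 * b.length := by
  induction b with
  | nil => rfl
  | cons x b ih =>
    rw [flat_cons, wt_cons, wt_append, wt_ra, wt_cons, ih]
    simp only [wtf, List.length_cons]
    omega

theorem wt_shuf {Λ : Type} {u v w : List (Sg Λ)} (h : Shuf u v w) : wt w = wt u + wt v := by
  induction h with
  | nil => rfl
  | left _ ih => rw [wt_cons, wt_cons, ih]; omega
  | right _ ih => rw [wt_cons, wt_cons, ih]; omega

/-- balance -/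
def bal {Λ : Type} : Sg Λ → ℤ
  | .H _ _ => 1
  | .A => 0
  | .E => -1

theorem bal_flat {Λ : Type} (b : List (Bl Λ)) : ((flat b).map bal).sum = 0 := by
  induction b with
  | nil => rfl
  | cons x b ih =>
    rw [flat_cons]
    simp [ra, bal, ih]

variable (T p0)

/-- the part of `L1` which does not depend on the input -/
def Fx : Set (List (Sg (La T))) :=
  {w | wt w % 3 = 1 ∨ (wt w % 3 = 2 ∧ ∃ b, w = flat b ∧ inc' 2 b) ∨
    (wt w % 3 = 0 ∧ ¬ ∃ b, w = flat b ∧ okW T p0 2 none b)}

/-- words whose first block has the wrong length -/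
def Fst (m : ℕ) : Set (List (Sg (La T))) :=
  {w | wt w % 3 = 0 ∧ ∃ x k y, k ≠ m ∧ w = x :: (ra k ++ .E :: y)}

/-- the regular language -/
def L1 (m : ℕ) : Set (List (Sg (La T))) := Fx T p0 ∪ Fst T m

variable {T p0}

theorem ra_inj {Λ : Type} {k k' : ℕ} {y y' : List (Sg Λ)}
    (h : ra k ++ Sg.E :: y = ra k' ++ Sg.E :: y') : k = k' := by
  induction k generalizing k' with
  | zero =>
    cases k' with
    | zero => rfl
    | succ k' => simp [ra, List.replicate_succ] at h
  | succ k ih =>
    cases k' with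
    | zero => simp [ra, List.replicate_succ] at h
    | succ k' =>
      rw [ra_succ, ra_succ, List.cons_append, List.cons_append, List.cons.injEq] at h
      rw [ih h.2]

include hT

theorem claimA {n : ℕ} (h : ¬ HaltsT T (some p0) n) (w : List (Sg (La T))) :
    ∃ u ∈ L1 T p0 (KK T * n), ∃ v ∈ L2 T, Shuf u v w := by
  have hK : 0 < KK T := Nat.pos_of_ne_zero (NeZero.ne _)
  by_cases hw : w ∈ L1 T p0 (KK T * n)
  · exact ⟨w, hw, [], Or.inl rfl, .id_left w⟩
  have h3 : wt w % 3 < 3 := Nat.mod_lt _ (by omega)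
  rcases Nat.lt_or_ge (wt w % 3) 1 with h4 | h4
  · have h0 : wt w % 3 = 0 := by omega
    have h1 : ∃ b, w = flat b ∧ okW T p0 2 none b := by
      by_contra h1
      exact hw (Or.inl (Or.inr (Or.inr ⟨h0, h1⟩)))
    obtain ⟨b, rfl, hb⟩ := h1
    cases b with
    | nil => cases hb
    | cons x b =>
      have hx : x.2.2 = KK T * n := by
        by_contra hx
        exact hw (Or.inr ⟨h0, _, _, _, hx, flat_cons _ _⟩)
      have hv : ¬ AllV T (x :: b) := by
        intro hv
        have := halts_of_ok hT b 2 none x hb hv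
        rw [hx, Nat.mul_div_cancel_left _ hK] at this
        exact h this
      obtain ⟨X, Z, a, a', τ, τ', e, h5, h6, h7⟩ := not_AllV T hv
      rw [e] at hb h0 ⊢
      have hi := okW_inc T p0 hb
      have hg := okW_gd T p0 hb
      refine ⟨flat (X ++ Z), Or.inl (Or.inr (Or.inl ⟨?_, _, rfl, inc'_of_inc hi⟩)), flat [a, a'],
        Or.inr (Or.inr (Or.inr ?_)), ?_⟩
      · rw [wt_flat] at h0 ⊢
        simp only [List.length_append, List.length_cons] at h0 ⊢
        omega
      · obtain ⟨c, l, k⟩ := a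
        obtain ⟨c', l', k'⟩ := a'
        simp only at h5 h6 h7
        subst h5 h6
        have hc : c' = c + 1 := by
          have : ∀ (X : List (Bl (La T))) (d : Fin 3),
              inc d (X ++ (c, some τ, k) :: (c', some τ', k') :: Z) → c' = c + 1 := by
            intro X
            induction X with
            | nil => intro d h; exact h.2.1
            | cons x X ih => intro d h; exact ih _ h.2
          exact this X _ hi
        subst hc
        refine ⟨c, τ, τ', k, k', ?_, ?_, h7, rfl⟩
        · exact gd_dvd T (hg (c, some τ, k) (by simp))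
        · exact gd_dvd T (hg (c + 1, some τ', k') (by simp))
      · have e2 : flat (X ++ a :: a' :: Z) = flat X ++ flat [a, a'] ++ flat Z := by
          rw [← flat_append, ← flat_append]; simp
        rw [e2, flat_append]
        exact Shuf.middle _ _ _
  · rcases Nat.lt_or_ge (wt w % 3) 2 with h5 | h5
    · exact (hw (Or.inl (Or.inl (by omega)))).elim
    · have h6 : ∃ a ∈ w, wtf a = 1 := by
        by_contra h6
        push Not at h6
        have : wt w = 0 := by
          unfold wt
          rw [List.sum_eq_zero]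
          intro y hy
          obtain ⟨a, ha, rfl⟩ := List.mem_map.1 hy
          have := h6 a ha
          cases a <;> simp_all [wtf]
        omega
      obtain ⟨a, ha, h7⟩ := h6
      obtain ⟨w1, w2, rfl⟩ := List.append_of_mem ha
      refine ⟨w1 ++ w2, Or.inl (Or.inl ?_), [a], ?_, ?_⟩
      · rw [wt_append, wt_cons] at h3 h5
        rw [wt_append]
        omega
      · cases a with
        | H c l => exact Or.inr (Or.inl ⟨c, l, rfl⟩)
        | A => simp [wtf] at h7
        | E => exact Or.inr (Or.inr (Or.inl rfl))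
      · have := Shuf.middle w1 [a] w2
        simpa using this

theorem claimB {n : ℕ} (h : HaltsT T (some p0) n) :
    ∃ w : List (Sg (La T)), ¬ ∃ u ∈ L1 T p0 (KK T * n), ∃ v ∈ L2 T, Shuf u v w := by
  obtain ⟨c, l, b, h1, h2, h3⟩ := ok_of_halts (p0 := p0) hT h 2 none 0 rfl
  refine ⟨flat ((c, l, KK T * n) :: b), ?_⟩
  rintro ⟨u, hu, v, hv, hs⟩
  have hw0 : wt (flat ((c, l, KK T * n) :: b)) % 3 = 0 := by
    rw [wt_flat, List.length_cons]; omega
  have hsw := wt_shuf hs
  have key : wt v % 3 = 1 → ∃ bu, u = flat bu ∧ inc' 2 bu := by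
    intro hv1
    have hu2 : wt u % 3 = 2 := by omega
    rcases hu with (h4 | h4 | h4) | h4
    · omega
    · exact h4.2
    · omega
    · have := h4.1; omega
  rcases hv with rfl | ⟨c', l', rfl⟩ | rfl | ⟨c', τ, τ', k, k', h5, h6, h7, rfl⟩
  · have := Shuf.eq_left hs
    subst this
    rcases hu with (h4 | h4 | h4) | ⟨-, x, k, y, hk, h4⟩
    · omega
    · omega
    · exact h4.2 ⟨_, rfl, h1⟩
    · rw [flat_cons, List.cons.injEq] at h4
      exact hk (ra_inj h4.2).symm
  · obtain ⟨bu, rfl, -⟩ := key (by simp [wt, wtf])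
    have := hs.count bal
    rw [bal_flat, bal_flat] at this
    simp [bal] at this
  · obtain ⟨bu, rfl, -⟩ := key (by simp [wt, wtf])
    have := hs.count bal
    rw [bal_flat, bal_flat] at this
    simp [bal] at this
  · obtain ⟨bu, rfl, hbu⟩ := key (by rw [wt_flat]; simp)
    obtain ⟨X, Y, Z, e1, e2⟩ := (Shuf.blocks _ _ _ hs).pair_right
    rw [e1] at h1 h2
    rw [e2] at hbu
    have hY := neighbours (okW_inc T p0 h1) hbu
    subst hY
    exact h7 (AllV_mid T h2 τ τ' rfl rfl)

omit hT

/-! ### Regularity -/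

instance {Λ : Type} [Finite Λ] : Finite (Sg Λ) := by
  let f : Sg Λ → (Fin 3 × Λ) ⊕ Bool := fun a =>
    match a with
    | .H c l => .inl (c, l)
    | .A => .inr true
    | .E => .inr false
  refine Finite.of_injective f ?_
  intro x y h
  cases x <;> cases y <;> simp_all [f]

theorem reg_wt {Λ : Type} (r : ℕ) (hr : r < 3) :
    Language.IsRegular ({w | wt w % 3 = r} : Language (Sg Λ)) := by
  refine ⟨ZMod 3, inferInstance, ⟨fun s a => s + (wtf a : ℕ), 0, {(r : ZMod 3)}⟩, ?_⟩
  have key : ∀ (w : List (Sg Λ)) (s : ZMod 3),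
      w.foldl (fun s a => s + ((wtf a : ℕ) : ZMod 3)) s = s + (wt w : ℕ) := by
    intro w
    induction w with
    | nil => intro s; simp [wt]
    | cons a w ih =>
      intro s
      rw [List.foldl_cons, ih, wt_cons]
      push_cast
      ring
  ext w
  change w.foldl (fun s a => s + ((wtf a : ℕ) : ZMod 3)) 0 = (r : ZMod 3) ↔ wt w % 3 = r
  rw [key, zero_add, ZMod.natCast_eq_natCast_iff', Nat.mod_eq_of_lt hr]

/-- modulus -/
def MO (T : List Tr) : ℕ := KK T * (T.map fun τ => τ.2.1).prod

theorem MO_ne (hT : ∀ τ ∈ T, Prp τ) : NeZero (MO T) := by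
  refine ⟨?_⟩
  unfold MO
  refine Nat.mul_ne_zero (NeZero.ne _) ?_
  intro h
  obtain ⟨τ, h1, h2⟩ := List.mem_map.1 (List.prod_eq_zero_iff.1 h)
  have := (hT τ h1).1
  omega

theorem dvd_MO (τ : Lab T) : KK T * ss T τ ∣ MO T := by
  unfold MO
  exact Nat.mul_dvd_mul_left _ (List.dvd_prod (List.mem_map.2 ⟨τ.1, τ.2, rfl⟩))

open Classical in
/-- transitions for `okW` -/
noncomputable def bsW (T : List Tr) (p0 : ℕ) (s : Fin 3 × Option (La T)) (c : Fin 3) (l : La T)
    (k : ZMod (MO T)) : Option (Fin 3 × Option (La T)) :=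
  if c = s.1 + 1 ∧ cmp T (out T p0 s.2) l ∧ gd T l k.val then some (c, some l) else none

theorem gd_val (l : La T) (k : ℕ) : gd T l (k : ZMod (MO T)).val ↔ gd T l k := by
  cases l with
  | none => exact Iff.rfl
  | some τ =>
    simp only [gd]
    rw [ZMod.val_natCast, Nat.mod_mod_of_dvd _ (dvd_MO τ)]

theorem okA_W (b : List (Bl (La T))) : ∀ s : Fin 3 × Option (La T),
    okA (bsW T p0) {s | s.2 = some none} s b ↔ okW T p0 s.1 s.2 b := by
  induction b with
  | nil => intro s; exact Iff.rfl
  | cons x b ih =>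
    intro s
    simp only [okA, okW]
    constructor
    · rintro ⟨s', h1, h2⟩
      unfold bsW at h1
      split_ifs at h1 with h3
      obtain rfl := Option.some.inj h1
      exact ⟨h3.1, h3.2.1, (gd_val _ _).1 h3.2.2, (ih _).1 h2⟩
    · rintro ⟨h1, h2, h3, h4⟩
      refine ⟨(x.1, some x.2.1), ?_, (ih _).2 h4⟩
      unfold bsW
      rw [if_pos ⟨h1, h2, (gd_val _ _).2 h3⟩]

/-- transitions for `inc'` -/
def bsU {Λ : Type} (d c : Fin 3) (_ : Λ) (_ : ZMod 1) : Option (Fin 3) :=
  if c = d ∨ c = d + 1 then some c else none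

theorem okA_U {Λ : Type} (b : List (Bl Λ)) : ∀ d : Fin 3,
    okA bsU Set.univ d b ↔ inc' d b := by
  induction b with
  | nil => intro s; exact ⟨fun _ => trivial, fun _ => trivial⟩
  | cons x b ih =>
    intro d
    simp only [okA, inc']
    constructor
    · rintro ⟨s', h1, h2⟩
      unfold bsU at h1
      split_ifs at h1 with h3
      obtain rfl := Option.some.inj h1
      exact ⟨h3, (ih _).1 h2⟩
    · rintro ⟨h1, h2⟩
      refine ⟨x.1, ?_, (ih _).2 h2⟩
      unfold bsU
      rw [if_pos h1]

theorem reg_Fx (hT : ∀ τ ∈ T, Prp τ) : Language.IsRegular (Fx T p0 : Language (Sg (La T))) := by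
  have := MO_ne hT
  have r1 : Language.IsRegular ({w | wt w % 3 = 1} : Language (Sg (La T))) := reg_wt 1 (by omega)
  have r2 : Language.IsRegular ({w | wt w % 3 = 2} : Language (Sg (La T))) := reg_wt 2 (by omega)
  have r0 : Language.IsRegular ({w | wt w % 3 = 0} : Language (Sg (La T))) := reg_wt 0 (by omega)
  have ru := reg_blocks (Λ := La T) (M := 1) bsU Set.univ (2 : Fin 3)
  have rw := reg_blocks (Λ := La T) (bsW T p0) {s | s.2 = some none} ((2 : Fin 3), none)
  simp_rw [okA_U] at ru
  simp_rw [okA_W] at rw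
  exact r1.add ((r2.inf ru).add (r0.inf rw.compl))

end

end Q222.SH
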