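import Pool.Agent.H109R3.CF.Src

/-!
# A proportional residue machine with an undecidable halting problem
-/

set_option autoImplicit false

namespace Q222.SH

open Pool.Agent.H502.PcSrc Pool.Agent.H109R3.CF

/-- In each transition `s u' = r u` and `u ≡ s0` modulo `s` with `s0 < s`. -/
def Prp (τ : Tr) : Prop :=
  τ.2.2.1 < τ.2.1 ∧ τ.2.2.2.2.1 * τ.2.1 = τ.2.2.2.1 * τ.2.2.1

theorem prp_trs {P : Type} [Fintype P] (D : DM P (Bool × Bool)) (e : P → ℕ) (p : P) (τ : Tr)
    (h : τ ∈ trs D e p) : Prp τ := by
  unfold trs at h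
  rw [List.mem_cons, List.mem_map] at h
  rcases h with rfl | ⟨i, hi, rfl⟩
  · exact ⟨(pr_prime _).pos, by simp⟩
  · rw [List.mem_range] at hi
    refine ⟨by simp only; omega, by simp only; ring⟩

theorem exists_tr' : ∃ (T : List Tr) (p0 : ℕ) (N : ℕ → ℕ), Computable N ∧ (∀ τ ∈ T, Prp τ) ∧
    ¬ ComputablePred (fun n => HaltsT T (some p0) (N n)) := by
  obtain ⟨Q, hQ, M, q0, N, _, hN, h⟩ := exists_sys
  have hf : Finite (RS M) := inferInstance
  let _ : Fintype (RS M) := Fintype.ofFinite _
  let D : DM (RS M) (Bool × Bool) := dm M q0 0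
  let e : RS M → ℕ := fun p => (Fintype.equivFin (RS M) p : ℕ)
  have he : Function.Injective e := by
    intro x y hxy
    exact (Fintype.equivFin (RS M)).injective (Fin.ext hxy)
  refine ⟨allT D e, e (.d1 q0 (z0 M)), fun n => 2 ^ N n, ?_, ?_, ?_⟩
  · have h1 : Primrec (fun n : ℕ => 2 ^ n) := by
      have : Primrec₂ (fun _ n : ℕ => 2 ^ n) := by
        refine (Primrec.nat_rec (f := fun _ : ℕ => 1) (g := fun _ (p : ℕ × ℕ) => 2 * p.2)
          (Primrec.const 1) ?_).of_eq ?_
        · exact (Primrec.nat_mul.comp (Primrec.const 2) (Primrec.snd.comp Primrec.snd))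
        · intro a n
          induction n with
          | zero => rfl
          | succ n ih =>
            simp only at ih ⊢
            rw [ih, pow_succ]
            ring
      exact this.comp (Primrec.const 0) Primrec.id
    exact h1.to_comp.comp hN
  · intro τ hτ
    obtain ⟨p, hp⟩ := (mem_allT D e τ).1 hτ
    exact prp_trs D e p τ hp
  · intro hc
    apply h
    refine hc.of_eq ?_
    intro n
    have h1 := dm_halts_iff M q0 0 q0 (ini (N n))
    rw [← h1]
    have hcode : code (v4 (ini (N n) true) (ini (N n) false) 0 0) = 2 ^ N n := by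
      unfold code
      rw [Fintype.prod_prod_type]
      simp [v4, ini, pr]
    have hnn : ∀ j, 0 ≤ v4 (ini (N n) true : ℤ) (ini (N n) false : ℤ) 0 0 j := by
      rintro ⟨a, b⟩
      cases a <;> cases b <;> simp [v4]
    constructor
    · intro hh
      exact halts_of D e he _ _ hh (some (.d1 q0 (z0 M))) _ hnn rfl hcode.symm
    · rintro ⟨k, hk⟩
      have := of_halts D e k _ _ hnn hk
      rw [hcode] at this
      exact this

end Q222.SH
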