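import Pool.Agent.Q5.SH.Stm
import Pool.Agent.Q285.SG.EX
import Pool.Agent.Q290.SG.SM

/-!
Project SH (helper5), job TR1 (helper222): a trace which is prime to `p`.
-/

set_option autoImplicit false
set_option linter.unusedSectionVars false

namespace Pool.Agent.Q222.SH

open NumberField IsDedekindDomain Module Pool.Agent.Y18.LC Pool.Agent.Q5.SG Pool.Agent.Q5.SH
open Pool.Agent.Q92.AR (Dv prin Pr Ray RayD Cong Pos SupF prin_mul prin_one prin_inv prin_div prinHom)

/-- `p` does not divide the discriminant if `(p)` is radical -/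
theorem not_dvd_discr {p : ℕ} (hp : p.Prime) {K : Type} [Field K] [NumberField K] (h : Unram K p) :
    ¬ (p : ℤ) ∣ NumberField.discr K := by
  have hpz := Nat.prime_iff_prime_int.1 hp
  have hp0 : (p : 𝓞 K) ≠ 0 := Nat.cast_ne_zero.2 hp.ne_zero
  rw [NumberField.not_dvd_discr_iff_forall_mem K (𝓞 K) hpz]
  intro P hP hpP
  rw [Int.cast_natCast] at hpP
  have hle : Ideal.span {(p : 𝓞 K)} ≤ P := (Ideal.span_singleton_le_iff_mem P).2 hpP
  have hPbot : P ≠ ⊥ := by
    rintro rfl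
    exact hp0 (Ideal.mem_bot.1 hpP)
  have hmax : P.IsMaximal := hP.isMaximal hPbot
  obtain ⟨Q, hQ⟩ := Ideal.dvd_iff_le.2 hle
  have hnle : ¬ Q ≤ P := by
    intro hQP
    obtain ⟨J, rfl⟩ := Ideal.dvd_iff_le.2 hQP
    have h1 : P * J ≤ Ideal.span {(p : 𝓞 K)} := by
      intro x hx
      rw [← Ideal.IsRadical.radical h]
      refine ⟨2, ?_⟩
      rw [hQ, pow_two]
      have h2 : P * (P * J) = P * P * J := by rw [mul_assoc]
      have h3 : x * x ∈ (P * J) * (P * J) := Ideal.mul_mem_mul hx hx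
      have h4 : (P * J) * (P * J) ≤ P * (P * J) := Ideal.mul_mono_left Ideal.mul_le_left
      exact h4 h3
    have h5 : P * J ≠ ⊥ := by
      intro h6
      rw [h6, Ideal.mul_bot, Ideal.span_singleton_eq_bot] at hQ
      exact hp0 hQ
    rw [hQ, ← Ideal.dvd_iff_le] at h1
    -- P * (P * J) ∣ P * J
    obtain ⟨L, hL⟩ := h1
    have h7 : P * J * (P * L) = P * J * 1 := by
      rw [mul_one]
      conv_rhs => rw [hL]
      ring
    have h8 : P * L = 1 := mul_left_cancel₀ h5 h7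
    refine hmax.ne_top (top_le_iff.1 ?_)
    rw [← Ideal.one_eq_top, ← h8]
    exact Ideal.mul_le_left
  have hcop : IsCoprime P Q := by
    rw [Ideal.isCoprime_iff_sup_eq]
    exact (Ideal.isMaximal_def.1 hmax).2 _ (lt_of_le_of_ne le_sup_left fun h0 => hnle (by rw [h0]; exact le_sup_right))
  have hpm : (Ideal.span {(p : ℤ)}).IsMaximal :=
    ((Ideal.span_singleton_prime hpz.ne_zero).2 hpz).isMaximal (by
      rw [Ne, Ideal.span_singleton_eq_bot]
      exact hpz.ne_zero)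
  have hlo : P.LiesOver (Ideal.span {(p : ℤ)}) :=
    (Ideal.liesOver_span_iff hP.ne_top hpz).2 (by rw [map_natCast]; exact hpP)
  have hmap : P * Q = Ideal.map (algebraMap ℤ (𝓞 K)) (Ideal.span {(p : ℤ)}) := by
    rw [Ideal.map_span, Set.image_singleton, ← hQ]
    congr 2
    exact (map_natCast (algebraMap ℤ (𝓞 K)) p).symm
  have hsep : Algebra.IsSeparable (ℤ ⧸ Ideal.span {(p : ℤ)}) (𝓞 K ⧸ P) := by
    let := Ideal.Quotient.field (Ideal.span {(p : ℤ)})
    let := Ideal.Quotient.field P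
    have : Finite (ℤ ⧸ Ideal.span {(p : ℤ)}) :=
      Ideal.finiteQuotientOfFreeOfNeBot _ (by
        rw [Ne, Ideal.span_singleton_eq_bot]
        exact hpz.ne_zero)
    infer_instance
  exact not_dvd_differentIdeal_iff.1 (not_dvd_differentIdeal_of_isCoprime_of_isSeparable ℤ P Q hcop hmap)

/-- the trace form modulo `p` is not degenerate -/
theorem exists_trace {p : ℕ} (hp : p.Prime) {K : Type} [Field K] [NumberField K] (h : Unram K p)
    (a : 𝓞 K) (ha : ¬ (p : 𝓞 K) ∣ a) : ∃ c : 𝓞 K, ¬ (p : ℤ) ∣ Algebra.trace ℤ (𝓞 K) (a * c) := by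
  classical
  have hpz := Nat.prime_iff_prime_int.1 hp
  by_contra hcon
  push Not at hcon
  apply ha
  let ω := RingOfIntegers.basis K
  let M := Algebra.traceMatrix ℤ ω
  have hdet : ¬ (p : ℤ) ∣ M.det := not_dvd_discr hp h
  let x : _ → ℤ := fun i => ω.repr a i
  have hx : ∀ i, (M.mulVec x) i = Algebra.trace ℤ (𝓞 K) (a * ω i) := by
    intro i
    rw [Matrix.mulVec, dotProduct]
    conv_rhs => rw [← ω.sum_repr a, Finset.sum_mul, map_sum]
    refine Finset.sum_congr rfl fun j _ => ?_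
    have h5 : M i j = Algebra.trace ℤ (𝓞 K) (ω i * ω j) := rfl
    rw [h5, smul_mul_assoc, map_smul, smul_eq_mul, mul_comm (ω i) (ω j), mul_comm]
  have h1 : ∀ i, (p : ℤ) ∣ (M.mulVec x) i := fun i => by rw [hx]; exact hcon _
  have h2 : ∀ i, (p : ℤ) ∣ M.det * x i := by
    intro i
    have h3 : M.det • x = M.adjugate.mulVec (M.mulVec x) := by
      rw [Matrix.mulVec_mulVec, Matrix.adjugate_mul, Matrix.smul_mulVec, Matrix.one_mulVec]
    have h4 : M.det * x i = (M.adjugate.mulVec (M.mulVec x)) i := by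
      rw [← h3]; rfl
    rw [h4, Matrix.mulVec, dotProduct]
    exact Finset.dvd_sum fun j _ => (h1 j).mul_left _
  have h3 : ∀ i, (p : ℤ) ∣ x i := fun i => (hpz.dvd_or_dvd (h2 i)).resolve_left hdet
  choose y hy using h3
  refine ⟨∑ i, y i • ω i, ?_⟩
  conv_lhs => rw [← ω.sum_repr a]
  rw [Finset.mul_sum]
  refine Finset.sum_congr rfl fun i _ => ?_
  have h4 : ω.repr a i = p * y i := hy i
  rw [h4, mul_smul, Algebra.smul_def, map_natCast]

/-- JOB SH-TR1 -/
theorem tr1 : S_TR1 := by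
  intro p hpf K _ _ hun S hS ⟨τ, hτ⟩
  have hp : p.Prime := hpf.out
  obtain ⟨a₀, h1, h2⟩ := Pool.Agent.Q285.SG.cr Pool.Agent.Q290.SG.ab p K S hS 1 0 1
  have hlt : ((p : ℝ)⁻¹) ^ 1 < 1 := by
    rw [pow_one]
    exact pinv_lt_one
  have hn : ‖τ (a₀ : K)‖ = 1 := by
    apply norm_of_sub_one
    have h3 := h2 τ hτ
    rw [show ((1 : 𝓞 K) : K) = 1 from rfl, map_sub, map_one] at h3
    exact lt_of_le_of_lt h3 hlt
  have hnd : ¬ (p : 𝓞 K) ∣ a₀ := by
    rintro ⟨b, rfl⟩
    have h4 : (((p : 𝓞 K) * b : 𝓞 K) : K) = (p : K) * (b : K) := by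
      rw [RingOfIntegers.coe_eq_algebraMap, RingOfIntegers.coe_eq_algebraMap, map_mul, map_natCast]
    rw [h4, map_mul, norm_mul, Pool.Agent.Q290.SG.norm_emb_p] at hn
    have h5 := mul_le_of_le_one_right (inv_nonneg.2 (Nat.cast_nonneg p)) (norm_int_le τ b) (a := (p : ℝ)⁻¹)
    rw [hn] at h5
    exact absurd pinv_lt_one (not_lt.2 h5)
  obtain ⟨c, hc⟩ := exists_trace hp hun a₀ hnd
  refine ⟨a₀ * c, fun σ hσ => ?_, hc⟩
  have h3 := h1 σ hσ
  rw [show ((0 : 𝓞 K) : K) = 0 from rfl, sub_zero] at h3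
  have h4 : ((a₀ * c : 𝓞 K) : K) = (a₀ : K) * (c : K) := rfl
  rw [h4, map_mul, norm_mul]
  exact lt_of_le_of_lt (mul_le_of_le_one_right (norm_nonneg _) (norm_int_le σ c)) (lt_of_le_of_lt h3 hlt)

end Pool.Agent.Q222.SH
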